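import Pool.Agent.Lib.MP_3ec3f9_lc.Tree

/-!
Existence of ambient trees with prescribed branching, and the hierarchy of branching functions.
-/

namespace Pool.Agent.FreeSOA

open Finset

/-- Indices at which the blocks of the next height start. -/
def blk (β e : ℕ → ℕ) : ℕ → ℕ
  | 0 => 0
  | j + 1 => blk β e j + 2 * (β (e (blk β e j)) + 1)

/-- Enumeration of the least points of the nodes of height `h`. -/
def en (β : ℕ → ℕ) : ℕ → ℕ → ℕ
  | 0 => id
  | h + 1 => fun j => en β h (blk β (en β h) j)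

theorem blk_strictMono (β e : ℕ → ℕ) : StrictMono (blk β e) :=
  strictMono_nat_of_lt_succ fun j => by simp only [blk]; omega

theorem en_strictMono (β : ℕ → ℕ) : ∀ h, StrictMono (en β h)
  | 0 => strictMono_id
  | h + 1 => (en_strictMono β h).comp (blk_strictMono β _)

theorem en_zero (β : ℕ → ℕ) : ∀ h, en β h 0 = 0
  | 0 => rfl
  | h + 1 => en_zero β h

/-- Index of the node of height `h` that contains `y`. -/
def ix (β : ℕ → ℕ) (h y : ℕ) : ℕ := Nat.findGreatest (fun j => en β h j ≤ y) y

theorem le_ix (β : ℕ → ℕ) (h y j : ℕ) : j ≤ ix β h y ↔ en β h j ≤ y := by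
  constructor
  · intro hj
    refine ((en_strictMono β h).monotone hj).trans ?_
    exact Nat.findGreatest_spec (P := fun j => en β h j ≤ y) (Nat.zero_le y)
      (by simp [en_zero])
  · intro hj
    exact Nat.le_findGreatest (((en_strictMono β h).id_le j).trans hj) hj

theorem ix_en (β : ℕ → ℕ) (h j : ℕ) : ix β h (en β h j) = j :=
  eq_of_forall_le_iff fun i => by rw [le_ix, (en_strictMono β h).le_iff_le]

theorem ix_comp (β : ℕ → ℕ) (h y : ℕ) : ix β (h + 1) (en β h (ix β h y)) = ix β (h + 1) y :=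
  eq_of_forall_le_iff fun i => by
    rw [le_ix, le_ix, en, (en_strictMono β h).le_iff_le, le_ix]

/-- The ambient tree of depth `d`. -/
def amb (β : ℕ → ℕ) (d : ℕ) : Amb where
  L i y := en β (d - i) (ix β (d - i) y)
  lam i y := decide (ix β (d - (i + 1)) y % 2 = 0)
  le i y := (le_ix _ _ _ _).1 le_rfl
  mono i x y hxy := (en_strictMono β _).monotone
    ((le_ix _ _ _ _).2 (((le_ix _ _ _ _).1 le_rfl).trans hxy))
  idem i y := by rw [ix_en]
  comp i y := by
    by_cases hi : i < d
    · rw [show d - i = d - (i + 1) + 1 by omega, ix_comp]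
    · rw [show d - (i + 1) = d - i by omega, ix_en]
  lam_comp i y := by rw [ix_en]

theorem amb_good (β : ℕ → ℕ) (d : ℕ) : ∀ h m j, m + h = d →
    (amb β d).Good β h m (en β h j) Set.univ
  | 0, m, j, hm => ⟨j, trivial, by
      have : d - m = 0 := by omega
      simp only [amb, this]
      exact congrArg (en β 0) (ix_en β 0 j)⟩
  | h + 1, m, j, hm => by
    have h1 : d - m = h + 1 := by omega
    have h2 : d - (m + 1) = h := by omega
    set t := blk β (en β h) j with ht
    set n := β (en β (h + 1) j) + 1 with hn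
    have ht' : blk β (en β h) (j + 1) = t + 2 * n := rfl
    refine ⟨(Ico t (t + 2 * n)).image (en β h), fun c => ?_, fun b hb => ?_⟩
    · have hinj : Function.Injective fun i => en β h (t + 2 * i + (t + cond c 0 1) % 2) :=
        fun i i' hii => by
          have := (en_strictMono β h).injective hii
          omega
      refine lt_of_lt_of_le ?_ (card_le_card (s := (range n).image
        fun i => en β h (t + 2 * i + (t + cond c 0 1) % 2)) fun b hb => ?_)
      · rw [card_image_of_injective _ hinj, card_range]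
        omega
      · obtain ⟨i, hi, rfl⟩ := mem_image.1 hb
        have := mem_range.1 hi
        refine mem_filter.2 ⟨mem_image_of_mem _ (mem_Ico.2 ⟨by omega, by omega⟩), ?_⟩
        simp only [amb, h2, ix_en]
        cases c <;> simp <;> omega
    · obtain ⟨i, hi, rfl⟩ := mem_image.1 hb
      refine ⟨?_, amb_good β d h (m + 1) i (by omega)⟩
      simp only [amb, h1]
      congr 1
      have hi := mem_Ico.1 hi
      apply le_antisymm
      · by_contra hc
        have := (le_ix β (h + 1) (en β h i) (j + 1)).1 (by omega)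
        rw [en, (en_strictMono β h).le_iff_le] at this
        omega
      · rw [le_ix, en, (en_strictMono β h).le_iff_le]
        exact hi.1

/-- The hierarchy of largeness notions, the ambient trees and the step as functions. -/
theorem exists_system : ∃ (A : ℕ → Amb) (Large : ℕ → ℕ → ℕ → Set ℕ → Prop) (a₀ : ℕ → ℕ),
    (∀ k, 2 ^ k ≤ a₀ k ∧ Large k 0 (a₀ k) Set.univ) ∧
    ∀ (k j a : ℕ) (G : Set ℕ) (f : ℕ → ℕ → ℕ) (D : Set ℕ) (c : Bool), ∃ p : ℕ × Set ℕ,
      j < k → Large k j a G →
      p.2 ⊆ G ∧ Large k (j + 1) p.1 p.2 ∧ (A k).L j p.1 = a ∧ (A k).lam j p.1 = c ∧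
      (a + 1) ^ 2 ≤ p.1 ∧ (∃ y ∈ p.2, a ≤ y ∧ y < p.1) ∧
      ((∃ D' : Finset ℕ, D'.card ≤ a ∧ D ⊆ D') → ∀ y ∈ D, (A k).L (j + 1) y ≠ p.1) ∧
      ∀ x ∈ p.2, ∀ y ∈ p.2, ∀ z ∈ p.2, x < y → f x y = z → z = x ∨ z = y := by
  choose nx hnx using step
  let β : ℕ → ℕ → ℕ := fun n => Nat.rec (fun _ => 0) (fun n b => nx (2 * n) b) n
  refine ⟨fun k => amb (β k) (2 * k),
    fun k j a G => (amb (β k) (2 * k)).Good (β (k - j)) (2 * (k - j)) j a G,
    fun k => en (β k) (2 * k) (2 ^ k),
    fun k => ⟨(en_strictMono _ _).id_le _, amb_good _ _ _ _ _ (by omega)⟩, ?_⟩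
  intro k j a G f D c
  by_cases hjk : j < k
  swap
  · exact ⟨(0, ∅), fun h => absurd h hjk⟩
  by_cases hG : (amb (β k) (2 * k)).Good (β (k - j)) (2 * (k - j)) j a G
  swap
  · exact ⟨(0, ∅), fun _ h => absurd h hG⟩
  have hk : k - j = k - (j + 1) + 1 := by omega
  rw [hk] at hG
  obtain ⟨b, G', h⟩ := hnx (2 * (k - (j + 1))) (β (k - (j + 1))) _ j a G f D c hG
  exact ⟨(b, G'), fun _ _ => h⟩

end Pool.Agent.FreeSOA
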