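import Pool.Agent.Lib.MP_3ec3f9_lc.Defs

/-!
Semi-regular cuts of countable sub-ultrapowers of the natural numbers are models of `RCA₀`.
-/

namespace Pool.Agent.FreeSOA

open Filter

deriving instance Countable for Tm
deriving instance Countable for Fm

namespace Str

variable (A : Str) (V : List (Set A.M)) (v : List A.M)

theorem val_var (i : ℕ) : A.val v (.var i) = v.getD i A.zero := rfl
theorem val_add (s t : Tm) : A.val v (.add s t) = A.add (A.val v s) (A.val v t) := rfl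
theorem val_mul (s t : Tm) : A.val v (.mul s t) = A.mul (A.val v s) (A.val v t) := rfl
theorem sat_eq (s t : Tm) : A.Sat V (.eq s t) v ↔ A.val v s = A.val v t := Iff.rfl
theorem sat_lt (s t : Tm) : A.Sat V (.lt s t) v ↔ A.lt (A.val v s) (A.val v t) := Iff.rfl
theorem sat_mem (t : Tm) (j : ℕ) : A.Sat V (.mem t j) v ↔ A.val v t ∈ V.getD j ∅ := Iff.rfl
theorem sat_not (φ : Fm) : A.Sat V (.not φ) v ↔ ¬ A.Sat V φ v := Iff.rfl
theorem sat_and (φ ψ : Fm) : A.Sat V (.and φ ψ) v ↔ A.Sat V φ v ∧ A.Sat V ψ v := Iff.rfl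
theorem sat_ball (t : Tm) (φ : Fm) :
    A.Sat V (.ball t φ) v ↔ ∀ x, A.lt x (A.val v t) → A.Sat V φ (x :: v) := Iff.rfl

end Str

/-- The standard structure. -/
@[reducible] def std : Str := ⟨ℕ, Set.univ, 0, 1, (· + ·), (· * ·), (· < ·)⟩

/-- A countable family of sequences closed under countably many pointwise operations. -/
inductive Tr (ι : Type) : Type
  | nil
  | num (i : ι) (t l : Tr ι)
  | set (i : ι) (t l : Tr ι)
  | app (l l' : Tr ι)

deriving instance Countable for Tr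

/-- Evaluation of the terms. -/
def Tr.ev {ι : Type} (O : ι → ℕ → List ℕ → List (Set ℕ) → ℕ × Set ℕ) (k : ℕ) :
    Tr ι → List ℕ × List (Set ℕ)
  | .nil => ([], [])
  | .num i t l => ((O i k (ev O k t).1 (ev O k t).2).1 :: (ev O k l).1, [])
  | .set i t l => ([], (O i k (ev O k t).1 (ev O k t).2).2 :: (ev O k l).2)
  | .app l l' => ((ev O k l).1, (ev O k l').2)

theorem exists_closed {ι : Type} [Countable ι] (O : ι → ℕ → List ℕ → List (Set ℕ) → ℕ × Set ℕ) :
    ∃ (N : Set (ℕ → ℕ)) (S : Set (ℕ → Set ℕ)), N.Countable ∧ S.Countable ∧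
      ∀ (i : ι) (v : List (ℕ → ℕ)) (V : List (ℕ → Set ℕ)), (∀ x ∈ v, x ∈ N) → (∀ X ∈ V, X ∈ S) →
        (fun k => (O i k (v.map (· k)) (V.map (· k))).1) ∈ N ∧
        (fun k => (O i k (v.map (· k)) (V.map (· k))).2) ∈ S := by
  refine ⟨Set.range fun p : ι × Tr ι => fun k => (O p.1 k (p.2.ev O k).1 (p.2.ev O k).2).1,
    Set.range fun p : ι × Tr ι => fun k => (O p.1 k (p.2.ev O k).1 (p.2.ev O k).2).2,
    Set.countable_range _, Set.countable_range _, fun i v V hv hV => ?_⟩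
  have h1 : ∃ t : Tr ι, ∀ k, (t.ev O k).1 = v.map (· k) := by
    induction v with
    | nil => exact ⟨.nil, fun _ => rfl⟩
    | cons x v ih =>
      obtain ⟨l, hl⟩ := ih fun y hy => hv y (List.mem_cons_of_mem _ hy)
      obtain ⟨⟨j, t⟩, rfl⟩ := hv x List.mem_cons_self
      exact ⟨.num j t l, fun k => by simp [Tr.ev, hl]⟩
  have h2 : ∃ t : Tr ι, ∀ k, (t.ev O k).2 = V.map (· k) := by
    induction V with
    | nil => exact ⟨.nil, fun _ => rfl⟩
    | cons x v ih =>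
      obtain ⟨l, hl⟩ := ih fun y hy => hV y (List.mem_cons_of_mem _ hy)
      obtain ⟨⟨j, t⟩, rfl⟩ := hV x List.mem_cons_self
      exact ⟨.set j t l, fun k => by simp [Tr.ev, hl]⟩
  obtain ⟨l, hl⟩ := h1
  obtain ⟨l', hl'⟩ := h2
  exact ⟨⟨(i, .app l l'), by simp [Tr.ev, hl, hl']⟩, ⟨(i, .app l l'), by simp [Tr.ev, hl, hl']⟩⟩

/-- The fixed nonprincipal ultrafilter. -/
noncomputable abbrev UU : Filter ℕ := (hyperfilter ℕ : Ultrafilter ℕ)

/-- Families of sequences closed under Skolem functions, with a semi-regular cut given by the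
increasing sequence `a`. -/
structure Sys where
  N : Set (ℕ → ℕ)
  S : Set (ℕ → Set ℕ)
  a : ℕ → ℕ → ℕ
  a_mem : ∀ j, a j ∈ N
  a_sq : ∀ j, ∀ᶠ k in UU, (a j k + 1) ^ 2 ≤ a (j + 1) k
  zero_mem : (fun _ => 0) ∈ N
  one_mem : (fun _ => 1) ∈ N
  add_mem : ∀ x ∈ N, ∀ y ∈ N, (fun k => x k + y k) ∈ N
  mul_mem : ∀ x ∈ N, ∀ y ∈ N, (fun k => x k * y k) ∈ N
  sk_mem : ∀ (θ : Fm) (v : List (ℕ → ℕ)) (V : List (ℕ → Set ℕ)), (∀ x ∈ v, x ∈ N) →
    (∀ X ∈ V, X ∈ S) → (fun k => sInf {x | std.Sat (V.map (· k)) θ (x :: v.map (· k))}) ∈ N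
  ca_mem : ∀ (θ η : Fm) (v : List (ℕ → ℕ)) (V : List (ℕ → Set ℕ)), (∀ x ∈ v, x ∈ N) →
    (∀ X ∈ V, X ∈ S) → (fun k => {x | ∃ y, std.Sat (V.map (· k)) θ (y :: x :: v.map (· k)) ∧
      ∀ y' ≤ y, std.Sat (V.map (· k)) η (y' :: x :: v.map (· k))}) ∈ S
  ind_mem : ∀ (θ : Fm) (v : List (ℕ → ℕ)) (V : List (ℕ → Set ℕ)), (∀ x ∈ v, x ∈ N) →
    (∀ X ∈ V, X ∈ S) → ∀ p ∈ N, (fun k => sInf {x | ¬ ∃ y < p k,
      std.Sat (V.map (· k)) θ (y :: (x + 1) :: v.map (· k))}) ∈ N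
  semireg : ∀ (θ : Fm) (v : List (ℕ → ℕ)) (V : List (ℕ → Set ℕ)), (∀ x ∈ v, x ∈ N) →
    (∀ X ∈ V, X ∈ S) → ∀ e ∈ N, (∃ j, ∀ᶠ k in UU, e k ≤ a j k) → ∃ j, ∀ j', ∀ᶠ k in UU,
      ∀ x ≤ e k, sInf {y | std.Sat (V.map (· k)) θ (y :: x :: v.map (· k))} ≤ a j' k →
        sInf {y | std.Sat (V.map (· k)) θ (y :: x :: v.map (· k))} < a j k

namespace Sys

variable (Y : Sys)

/-- Sequences below the cut. -/
def Bd (x : ℕ → ℕ) : Prop := ∃ j, ∀ᶠ k in UU, x k ≤ Y.a j k

theorem a_mono {j j' : ℕ} (h : j ≤ j') : ∀ᶠ k in UU, Y.a j k ≤ Y.a j' k := by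
  induction h with
  | refl => exact Eventually.of_forall fun _ => le_rfl
  | step _ ih =>
    filter_upwards [ih, Y.a_sq _] with k h1 h2
    exact h1.trans (le_trans (by nlinarith) h2)

variable {Y}

theorem Bd.both {x y : ℕ → ℕ} (hx : Y.Bd x) (hy : Y.Bd y) :
    ∃ j, ∀ᶠ k in UU, x k ≤ Y.a j k ∧ y k ≤ Y.a j k := by
  obtain ⟨j, hj⟩ := hx
  obtain ⟨j', hj'⟩ := hy
  refine ⟨max j j', ?_⟩
  filter_upwards [hj, hj', Y.a_mono (le_max_left j j'), Y.a_mono (le_max_right j j')]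
    with k h1 h2 h3 h4
  exact ⟨h1.trans h3, h2.trans h4⟩

theorem Bd.add {x y : ℕ → ℕ} (hx : Y.Bd x) (hy : Y.Bd y) : Y.Bd fun k => x k + y k := by
  obtain ⟨j, hj⟩ := hx.both hy
  refine ⟨j + 1, ?_⟩
  filter_upwards [hj, Y.a_sq j] with k h1 h2
  nlinarith [h1.1, h1.2]

theorem Bd.mul {x y : ℕ → ℕ} (hx : Y.Bd x) (hy : Y.Bd y) : Y.Bd fun k => x k * y k := by
  obtain ⟨j, hj⟩ := hx.both hy
  refine ⟨j + 1, ?_⟩
  filter_upwards [hj, Y.a_sq j] with k h1 h2
  nlinarith [Nat.mul_le_mul h1.1 h1.2]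

theorem Bd.of_le {x y : ℕ → ℕ} (hy : Y.Bd y) (h : ∀ᶠ k in UU, x k ≤ y k) : Y.Bd x := by
  obtain ⟨j, hj⟩ := hy
  refine ⟨j, ?_⟩
  filter_upwards [hj, h] with k h1 h2 using h2.trans h1

variable (Y)

theorem bd_zero : Y.Bd fun _ => 0 := ⟨0, Eventually.of_forall fun _ => Nat.zero_le _⟩

theorem bd_one : Y.Bd fun _ => 1 := by
  refine ⟨1, ?_⟩
  filter_upwards [Y.a_sq 0] with k h
  exact le_trans (Nat.one_le_pow _ _ (Nat.succ_pos _)) h

theorem bd_a (j : ℕ) : Y.Bd (Y.a j) := ⟨j, Eventually.of_forall fun _ => le_rfl⟩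

/-- The first-order part. -/
def M : Type := {g : Germ UU ℕ // ∃ x, (x ∈ Y.N ∧ Y.Bd x) ∧ (x : Germ UU ℕ) = g}

variable {Y}

/-- A representative. -/
noncomputable def rep (x : Y.M) : ℕ → ℕ := x.2.choose

theorem rep_mem (x : Y.M) : rep x ∈ Y.N := x.2.choose_spec.1.1

theorem rep_bd (x : Y.M) : Y.Bd (rep x) := x.2.choose_spec.1.2

theorem eq_iff (x y : Y.M) : x = y ↔ ∀ᶠ k in UU, rep x k = rep y k := by
  constructor
  · rintro rfl
    exact Eventually.of_forall fun _ => rfl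
  · intro h
    apply Subtype.ext
    rw [← x.2.choose_spec.2, ← y.2.choose_spec.2]
    exact Germ.coe_eq.2 h

/-- The element represented by a sequence. -/
noncomputable def el (x : ℕ → ℕ) (h : x ∈ Y.N) (h' : Y.Bd x) : Y.M := ⟨x, x, ⟨h, h'⟩, rfl⟩

theorem rep_el (x : ℕ → ℕ) (h : x ∈ Y.N) (h' : Y.Bd x) : ∀ᶠ k in UU, rep (el x h h') k = x k :=
  Germ.coe_eq.1 (el x h h').2.choose_spec.2

/-- The subset of the model given by a sequence of sets. -/
def star (X : ℕ → Set ℕ) : Set Y.M := {x | ∀ᶠ k in UU, rep x k ∈ X k}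

variable (Y)

/-- The cut model. -/
@[reducible] noncomputable def str : Str where
  M := Y.M
  S := star '' Y.S
  zero := el _ Y.zero_mem Y.bd_zero
  one := el _ Y.one_mem Y.bd_one
  add x y := el _ (Y.add_mem _ (rep_mem x) _ (rep_mem y)) ((rep_bd x).add (rep_bd y))
  mul x y := el _ (Y.mul_mem _ (rep_mem x) _ (rep_mem y)) ((rep_bd x).mul (rep_bd y))
  lt x y := ∀ᶠ k in UU, rep x k < rep y k

theorem rep_zero : ∀ᶠ k in UU, rep Y.str.zero k = 0 := rep_el _ Y.zero_mem Y.bd_zero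

theorem rep_one : ∀ᶠ k in UU, rep Y.str.one k = 1 := rep_el _ Y.one_mem Y.bd_one

variable {Y}

theorem rep_add (x y : Y.M) : ∀ᶠ k in UU, rep (Y.str.add x y) k = rep x k + rep y k :=
  rep_el _ (Y.add_mem _ (rep_mem x) _ (rep_mem y)) ((rep_bd x).add (rep_bd y))

theorem rep_mul (x y : Y.M) : ∀ᶠ k in UU, rep (Y.str.mul x y) k = rep x k * rep y k :=
  rep_el _ (Y.mul_mem _ (rep_mem x) _ (rep_mem y)) ((rep_bd x).mul (rep_bd y))

theorem rep_val (v : List Y.M) : ∀ t : Tm,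
    ∀ᶠ k in UU, rep (Y.str.val v t) k = std.val (v.map (rep · k)) t
  | .var i => by
    by_cases hi : i < v.length
    · exact Eventually.of_forall fun k => by simp [Str.val_var, hi]
    · filter_upwards [Y.rep_zero] with k hk
      simpa [Str.val_var, List.getD_eq_default _ _ (not_lt.1 hi), hi] using hk
  | .zero => Y.rep_zero
  | .one => Y.rep_one
  | .add s t => by
    filter_upwards [rep_val v s, rep_val v t, rep_add (Y.str.val v s) (Y.str.val v t)]
      with k h1 h2 h3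
    simp only [Str.val_add]
    rw [h3, h1, h2]
  | .mul s t => by
    filter_upwards [rep_val v s, rep_val v t, rep_mul (Y.str.val v s) (Y.str.val v t)]
      with k h1 h2 h3
    simp only [Str.val_mul]
    rw [h3, h1, h2]

theorem map_rep (v : List Y.M) (k : ℕ) : (v.map rep).map (· k) = v.map (rep · k) := by simp

theorem rep_mem' (v : List Y.M) : ∀ x ∈ v.map rep, x ∈ Y.N := by
  simp only [List.mem_map]
  rintro _ ⟨x, -, rfl⟩
  exact rep_mem x

theorem sInf_spec (P : ℕ → Prop) {y : ℕ} (h : P y) : sInf {x | P x} ≤ y ∧ P (sInf {x | P x}) :=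
  ⟨Nat.sInf_le (s := {x | P x}) h, Nat.sInf_mem (s := {x | P x}) ⟨y, h⟩⟩

/-- Bounded witnesses exist in the model. -/
theorem wit (θ : Fm) (v : List Y.M) (V : List (ℕ → Set ℕ)) (hV : ∀ X ∈ V, X ∈ Y.S)
    {b : ℕ → ℕ} (hb : Y.Bd b)
    (h : ∀ᶠ k in UU, ∃ y < b k, std.Sat (V.map (· k)) θ (y :: v.map (rep · k))) :
    ∃ y : Y.M, ∀ᶠ k in UU, rep y k < b k ∧ std.Sat (V.map (· k)) θ (rep y k :: v.map (rep · k)) := by
  have hm := Y.sk_mem θ (v.map rep) V (rep_mem' v) hV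
  simp only [map_rep] at hm
  have h' : ∀ᶠ k in UU, sInf {x | std.Sat (V.map (· k)) θ (x :: v.map (rep · k))} < b k ∧
      std.Sat (V.map (· k)) θ
        (sInf {x | std.Sat (V.map (· k)) θ (x :: v.map (rep · k))} :: v.map (rep · k)) := by
    filter_upwards [h] with k ⟨y, hy, hs⟩
    have := sInf_spec (fun x => std.Sat (V.map (· k)) θ (x :: v.map (rep · k))) hs
    exact ⟨this.1.trans_lt hy, this.2⟩
  have hbd := hb.of_le (h'.mono fun k hk => hk.1.le)
  refine ⟨el _ hm hbd, ?_⟩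
  filter_upwards [h', rep_el _ hm hbd] with k h1 h2
  rw [h2]
  exact h1

/-- Transfer for bounded formulas. -/
theorem los (V : List (ℕ → Set ℕ)) (hV : ∀ X ∈ V, X ∈ Y.S) : ∀ (θ : Fm) (v : List Y.M),
    Y.str.Sat (V.map star) θ v ↔ ∀ᶠ k in UU, std.Sat (V.map (· k)) θ (v.map (rep · k))
  | .eq s t, v => by
    simp only [Str.sat_eq]
    rw [eq_iff]
    refine eventually_congr ?_
    filter_upwards [rep_val v s, rep_val v t] with k h1 h2
    rw [h1, h2]
  | .lt s t, v => by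
    simp only [Str.sat_lt]
    refine eventually_congr ?_
    filter_upwards [rep_val v s, rep_val v t] with k h1 h2
    rw [h1, h2]
  | .mem t j, v => by
    simp only [Str.sat_mem]
    by_cases hj : j < V.length
    · have h1 : (V.map (star (Y := Y))).getD j ∅ = star V[j] := by simp [hj]
      have h2 : ∀ k, (V.map (· k)).getD j ∅ = V[j] k := fun k => by simp [hj]
      simp only [h1, h2]
      refine eventually_congr ?_
      filter_upwards [rep_val v t] with k h1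
      rw [h1]
    · have h1 : (V.map (star (Y := Y))).getD j ∅ = ∅ := by simp [hj]
      have h2 : ∀ k, (V.map (· k)).getD j ∅ = ∅ := fun k => by simp [hj]
      simp only [h1, h2]
      exact ⟨False.elim, fun h => h.exists.elim fun _ h => h⟩
  | .not φ, v => by
    simp only [Str.sat_not]
    rw [los V hV φ v, Ultrafilter.eventually_not]
  | .and φ ψ, v => by
    simp only [Str.sat_and]
    rw [los V hV φ v, los V hV ψ v, eventually_and]
  | .ball t φ, v => by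
    simp only [Str.sat_ball]
    constructor
    · intro h
      by_contra hn
      rw [← Ultrafilter.eventually_not] at hn
      obtain ⟨y, hy⟩ := wit (.not φ) v V hV (rep_bd (Y.str.val v t)) (by
        filter_upwards [hn, rep_val v t] with k h1 h2
        rw [h2]
        push Not at h1
        exact h1)
      have := (los V hV φ _).1 (h y (hy.mono fun k hk => hk.1))
      obtain ⟨k, h1, h2⟩ := (hy.and this).exists
      exact h1.2 h2
    · intro h x hx
      rw [los V hV φ]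
      filter_upwards [h, hx, rep_val v t] with k h1 h2 h3
      exact h1 _ (h3 ▸ h2)

theorem exists_list (V : List (Set Y.M)) (hV : ∀ X ∈ V, X ∈ Y.str.S) :
    ∃ V' : List (ℕ → Set ℕ), (∀ X ∈ V', X ∈ Y.S) ∧ V = V'.map star := by
  induction V with
  | nil => exact ⟨[], by simp, rfl⟩
  | cons X V ih =>
    obtain ⟨V', h1, rfl⟩ := ih fun y hy => hV y (List.mem_cons_of_mem _ hy)
    obtain ⟨X', h2, rfl⟩ := hV X List.mem_cons_self
    exact ⟨X' :: V', by simpa using ⟨h2, h1⟩, rfl⟩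

theorem sInf_step (ρ : ℕ → Prop) (n : ℕ) (h0 : ρ 0) (hn : ¬ ρ n) :
    sInf {x | ¬ ρ (x + 1)} < n ∧ ρ (sInf {x | ¬ ρ (x + 1)}) ∧ ¬ ρ (sInf {x | ¬ ρ (x + 1)} + 1) := by
  obtain _ | n := n
  · exact absurd h0 hn
  refine ⟨Nat.lt_succ_of_le (Nat.sInf_le (s := {x | ¬ ρ (x + 1)}) hn), ?_,
    Nat.sInf_mem (s := {x | ¬ ρ (x + 1)}) ⟨n, hn⟩⟩
  rcases h : sInf {x | ¬ ρ (x + 1)} with _ | s
  · exact h0
  · have := Nat.notMem_of_lt_sInf (s := {x | ¬ ρ (x + 1)}) (m := s) (by omega)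
    simpa using this

theorem induction (θ : Fm) (v : List Y.M) (V : List (ℕ → Set ℕ)) (hV : ∀ X ∈ V, X ∈ Y.S)
    (h0 : ∃ y, Y.str.Sat (V.map star) θ (y :: Y.str.zero :: v))
    (hs : ∀ x, (∃ y, Y.str.Sat (V.map star) θ (y :: x :: v)) →
      ∃ y, Y.str.Sat (V.map star) θ (y :: Y.str.add x Y.str.one :: v)) (e : Y.M) :
    ∃ y, Y.str.Sat (V.map star) θ (y :: e :: v) := by
  obtain ⟨j, hj⟩ := Y.semireg θ (v.map rep) V (rep_mem' v) hV _ (rep_mem e) (rep_bd e)
  simp only [map_rep] at hj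
  have h1 : ∀ x : Y.M, (∀ᶠ k in UU, rep x k ≤ rep e k) →
      (∃ y, Y.str.Sat (V.map star) θ (y :: x :: v)) →
      ∀ᶠ k in UU, ∃ y < Y.a j k, std.Sat (V.map (· k)) θ (y :: rep x k :: v.map (rep · k)) := by
    rintro x hx ⟨y, hy⟩
    obtain ⟨j', hj'⟩ := rep_bd y
    filter_upwards [hx, (los V hV θ _).1 hy, hj', hj j'] with k h1 h2 h3 h4
    have := sInf_spec (fun y => std.Sat (V.map (· k)) θ (y :: rep x k :: v.map (rep · k))) h2
    exact ⟨_, h4 _ h1 (this.1.trans h3), this.2⟩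
  have h2 : ∀ x : Y.M,
      (∀ᶠ k in UU, ∃ y < Y.a j k, std.Sat (V.map (· k)) θ (y :: rep x k :: v.map (rep · k))) →
      ∃ y, Y.str.Sat (V.map star) θ (y :: x :: v) := by
    intro x hx
    obtain ⟨y, hy⟩ := wit θ (x :: v) V hV (Y.bd_a j) hx
    exact ⟨y, (los V hV θ _).2 (hy.mono fun k hk => hk.2)⟩
  by_contra hn
  have hn' := Ultrafilter.eventually_not.2 (mt (h2 e) hn)
  have h0' := h1 _ (Y.rep_zero.mono fun k hk => by rw [hk]; exact Nat.zero_le _) h0
  have hm := Y.ind_mem θ (v.map rep) V (rep_mem' v) hV _ (Y.a_mem j)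
  simp only [map_rep] at hm
  have key := (h0'.and (hn'.and Y.rep_zero)).mono fun k hk => sInf_step
    (fun x => ∃ y < Y.a j k, std.Sat (V.map (· k)) θ (y :: x :: v.map (rep · k))) (rep e k)
    (hk.2.2 ▸ hk.1) hk.2.1
  have hbd := (rep_bd e).of_le (key.mono fun k hk => hk.1.le)
  have h3 := h2 (el _ hm hbd) (by
    filter_upwards [key, rep_el _ hm hbd] with k h1 h2
    rw [h2]
    exact h1.2.1)
  have h4 : ∀ᶠ k in UU, rep (Y.str.add (el _ hm hbd) Y.str.one) k = sInf {x | ¬ ∃ y < Y.a j k,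
      std.Sat (V.map (· k)) θ (y :: (x + 1) :: v.map (rep · k))} + 1 := by
    filter_upwards [rep_add (el _ hm hbd) Y.str.one, rep_el _ hm hbd, Y.rep_one] with k h1 h2 h3
    rw [h1, h2, h3]
  have h5 := h1 _ (by
    filter_upwards [key, h4] with k h1 h2
    rw [h2]
    exact h1.1) (hs _ h3)
  obtain ⟨k, h6, h7, h8⟩ := (key.and (h4.and h5)).exists
  rw [h7] at h8
  exact h6.2.2 h8

theorem comprehension (θ η : Fm) (v : List Y.M) (V : List (ℕ → Set ℕ)) (hV : ∀ X ∈ V, X ∈ Y.S)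
    (h : ∀ x, (∃ y, Y.str.Sat (V.map star) θ (y :: x :: v)) ↔
      ∀ y, Y.str.Sat (V.map star) η (y :: x :: v)) :
    ∃ X ∈ Y.str.S, ∀ x, x ∈ X ↔ ∃ y, Y.str.Sat (V.map star) θ (y :: x :: v) := by
  have hm := Y.ca_mem θ η (v.map rep) V (rep_mem' v) hV
  simp only [map_rep] at hm
  refine ⟨_, ⟨_, hm, rfl⟩, fun x => ⟨fun hx => ?_, fun ⟨y, hy⟩ => ?_⟩⟩
  · by_contra hn
    have hn' := mt (h x).2 hn
    push Not at hn'
    obtain ⟨y₀, hy₀⟩ := hn'
    rw [los V hV, ← Ultrafilter.eventually_not] at hy₀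
    obtain ⟨y, hy⟩ := wit θ (x :: v) V hV (rep_bd y₀) (by
      filter_upwards [hx, hy₀] with k ⟨y, h1, h2⟩ h3
      exact ⟨y, lt_of_not_ge fun hle => h3 (h2 _ hle), h1⟩)
    exact hn ⟨y, (los V hV θ _).2 (hy.mono fun k hk => hk.2)⟩
  · have h1 := (h x).1 ⟨y, hy⟩
    have h2 : ∀ᶠ k in UU, ∀ y' ≤ rep y k,
        std.Sat (V.map (· k)) η (y' :: rep x k :: v.map (rep · k)) := by
      by_contra hn
      rw [← Ultrafilter.eventually_not] at hn
      obtain ⟨w, hw⟩ := wit (.not η) (x :: v) V hV ((rep_bd y).add Y.bd_one) (by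
        filter_upwards [hn] with k hk
        push Not at hk
        obtain ⟨y', h3, h4⟩ := hk
        exact ⟨y', Nat.lt_succ_of_le h3, h4⟩)
      obtain ⟨k, h3, h4⟩ := (hw.and ((los V hV η _).1 (h1 w))).exists
      exact h3.2 h4
    filter_upwards [(los V hV θ _).1 hy, h2] with k h3 h4
    exact ⟨_, h3, h4⟩

variable (Y)

theorem isRCA0 : Y.str.IsRCA0 where
  succ_ne_zero n h := by
    obtain ⟨k, h1, h2, h3, h4⟩ := (((eq_iff _ _).1 h).and ((rep_add n Y.str.one).and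
      (Y.rep_one.and Y.rep_zero))).exists
    omega
  succ_inj m n h := by
    rw [eq_iff] at h ⊢
    filter_upwards [h, rep_add m Y.str.one, rep_add n Y.str.one] with k h1 h2 h3
    omega
  add_zero m := by
    rw [eq_iff]
    filter_upwards [rep_add m Y.str.zero, Y.rep_zero] with k h1 h2
    omega
  add_succ m n := by
    rw [eq_iff]
    filter_upwards [rep_add m (Y.str.add n Y.str.one), rep_add n Y.str.one,
      rep_add (Y.str.add m n) Y.str.one, rep_add m n] with k h1 h2 h3 h4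
    omega
  mul_zero m := by
    rw [eq_iff]
    filter_upwards [rep_mul m Y.str.zero, Y.rep_zero] with k h1 h2
    rw [h1, h2, Nat.mul_zero]
  mul_succ m n := by
    rw [eq_iff]
    filter_upwards [rep_mul m (Y.str.add n Y.str.one), rep_add n Y.str.one,
      rep_add (Y.str.mul m n) m, rep_mul m n, Y.rep_one] with k h1 h2 h3 h4 h5
    rw [h1, h2, h3, h4, h5, Nat.mul_succ]
  not_lt_zero m h := by
    obtain ⟨k, h1, h2⟩ := (Eventually.and h Y.rep_zero).exists
    omega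
  lt_succ m n := by
    rw [eq_iff]
    change (∀ᶠ k in UU, _) ↔ (∀ᶠ k in UU, _) ∨ _
    rw [← Ultrafilter.eventually_or]
    refine eventually_congr ?_
    filter_upwards [rep_add n Y.str.one, Y.rep_one] with k h1 h2
    omega
  sigma1_induction θ v V hV := by
    obtain ⟨V', hV', rfl⟩ := exists_list V hV
    exact induction θ v V' hV'
  delta1_comprehension θ η v V hV := by
    obtain ⟨V', hV', rfl⟩ := exists_list V hV
    exact comprehension θ η v V' hV'

end Sys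

end Pool.Agent.FreeSOA
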