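import Mathlib

/-!
Semantics of second-order arithmetic: structures `(M, S, 0, 1, +, ·, <)` with `S ⊆ 𝒫(M)`,
bounded-quantifier formulas, and the statements `RCA₀`, `FS(2)`, `BΣ⁰₂` read in a structure.
-/

namespace Pool.Agent.FreeSOA

/-- Number terms; `var i` is the number variable with (de Bruijn) index `i`. -/
inductive Tm : Type
  | var (i : ℕ)
  | zero
  | one
  | add (s t : Tm)
  | mul (s t : Tm)

/-- Bounded-quantifier formulas: `s = t`, `s < t`, `t ∈ X_j`, negation, conjunction and the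
bounded quantifier `∀ x < t` (which binds number variable `0` of its body). -/
inductive Fm : Type
  | eq (s t : Tm)
  | lt (s t : Tm)
  | mem (t : Tm) (j : ℕ)
  | not (φ : Fm)
  | and (φ ψ : Fm)
  | ball (t : Tm) (φ : Fm)

/-- A structure for the language of second-order arithmetic: first-order part `M`,
second-order part `S`, a family of subsets of `M`. -/
structure Str where
  M : Type
  S : Set (Set M)
  zero : M
  one : M
  add : M → M → M
  mul : M → M → M
  lt : M → M → Prop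

namespace Str

variable (A : Str)

/-- Value of a term; number variable `i` is the `i`-th entry of the list `v` (zero beyond it). -/
noncomputable def val (v : List A.M) (t : Tm) : A.M :=
  Tm.rec (motive := fun _ => A.M) (fun i => v.getD i A.zero) A.zero A.one
    (fun _ _ a b => A.add a b) (fun _ _ a b => A.mul a b) t

/-- Truth of a bounded formula; set variable `j` is the `j`-th entry of `V` (empty beyond it). -/
noncomputable def Sat (V : List (Set A.M)) (φ : Fm) : List A.M → Prop :=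
  Fm.rec (motive := fun _ => List A.M → Prop)
    (fun s t v => A.val v s = A.val v t)
    (fun s t v => A.lt (A.val v s) (A.val v t))
    (fun t j v => A.val v t ∈ V.getD j ∅)
    (fun _ p v => ¬ p v)
    (fun _ _ p q v => p v ∧ q v)
    (fun t _ p v => ∀ x, A.lt x (A.val v t) → p (x :: v)) φ

/-- `A` is a model of `RCA₀` (Simpson's axioms): the eight basic axioms, `Σ⁰₁` induction and
`Δ⁰₁` comprehension, with arbitrary number parameters `v` and set parameters `V` from `S`. -/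
structure IsRCA0 : Prop where
  succ_ne_zero : ∀ n, A.add n A.one ≠ A.zero
  succ_inj : ∀ m n, A.add m A.one = A.add n A.one → m = n
  add_zero : ∀ m, A.add m A.zero = m
  add_succ : ∀ m n, A.add m (A.add n A.one) = A.add (A.add m n) A.one
  mul_zero : ∀ m, A.mul m A.zero = A.zero
  mul_succ : ∀ m n, A.mul m (A.add n A.one) = A.add (A.mul m n) m
  not_lt_zero : ∀ m, ¬ A.lt m A.zero
  lt_succ : ∀ m n, A.lt m (A.add n A.one) ↔ A.lt m n ∨ m = n
  sigma1_induction : ∀ (θ : Fm) (v : List A.M) (V : List (Set A.M)), (∀ X ∈ V, X ∈ A.S) →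
    (∃ y, A.Sat V θ (y :: A.zero :: v)) →
    (∀ x, (∃ y, A.Sat V θ (y :: x :: v)) → ∃ y, A.Sat V θ (y :: A.add x A.one :: v)) →
    ∀ x, ∃ y, A.Sat V θ (y :: x :: v)
  delta1_comprehension : ∀ (θ η : Fm) (v : List A.M) (V : List (Set A.M)),
    (∀ X ∈ V, X ∈ A.S) →
    (∀ x, (∃ y, A.Sat V θ (y :: x :: v)) ↔ ∀ y, A.Sat V η (y :: x :: v)) →
    ∃ X ∈ A.S, ∀ x, x ∈ X ↔ ∃ y, A.Sat V θ (y :: x :: v)

/-- The pairing function `(x, y) = (x + y)² + x` of `RCA₀`. -/
def pr (x y : A.M) : A.M := A.add (A.mul (A.add x y) (A.add x y)) x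

/-- `FS(2)`: whenever `F ∈ S` is the graph `{((x, y), f(x, y)) : x < y}` of a function on pairs,
there is an unbounded `X ∈ S` such that `f(x, y) ∈ X` implies `f(x, y) ∈ {x, y}` for all
`x < y` in `X`. -/
def FreeSet2 : Prop :=
  ∀ F ∈ A.S, (∀ x y, A.lt x y → ∃! z, A.pr (A.pr x y) z ∈ F) →
    ∃ X ∈ A.S, (∀ b, ∃ x ∈ X, A.lt b x) ∧
      ∀ x ∈ X, ∀ y ∈ X, A.lt x y → ∀ z, A.pr (A.pr x y) z ∈ F → z ∉ X ∨ z = x ∨ z = y

/-- The scheme `BΣ⁰₂`, for the `Σ⁰₂` formulas `φ(i, j) = ∃ u ∀ w θ(w, u, j, i, v, V)`. -/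
def BSigma2 : Prop :=
  ∀ (θ : Fm) (v : List A.M) (V : List (Set A.M)), (∀ X ∈ V, X ∈ A.S) → ∀ a,
    (∀ i, A.lt i a → ∃ j, ∃ u, ∀ w, A.Sat V θ (w :: u :: j :: i :: v)) →
    ∃ b, ∀ i, A.lt i a → ∃ j, A.lt j b ∧ ∃ u, ∀ w, A.Sat V θ (w :: u :: j :: i :: v)

end Str

end Pool.Agent.FreeSOA
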