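import Pool.Agent.Lib.MP_3ec3f9_lc.Defs

/-!
Simpson's codes of finite sets and sequences, the free set principle for all exponents and
`Σ⁰₁` separation, read in a structure.
-/

namespace Pool.Agent.FreeSOA.Str

variable (A : Str)

/-- `i` belongs to the finite set given by `c = (k, (m, n))`: `i < k` and `m (i + 1) + 1`
divides `n`. -/
def cmem (c i : A.M) : Prop :=
  ∃ k m n d, c = A.pr k (A.pr m n) ∧ A.lt i k ∧
    n = A.mul (A.add (A.mul m (A.add i A.one)) A.one) d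

/-- `c` is the code of a finite set: it has the form `(k, (m, n))`, and no smaller number of this
form gives the same set. -/
def IsCode (c : A.M) : Prop :=
  (∃ k m n, c = A.pr k (A.pr m n)) ∧
    ∀ c', A.lt c' c → (∃ k m n, c' = A.pr k (A.pr m n)) → ¬ ∀ i, A.cmem c i ↔ A.cmem c' i

/-- `c` is the code of a strictly increasing sequence `{(i, x_i) : i < n}` of length `n`. -/
def IsTuple (n c : A.M) : Prop :=
  A.IsCode c ∧ (∀ p, A.cmem c p → ∃ i x, p = A.pr i x) ∧
    (∀ i, A.lt i n ↔ ∃ x, A.cmem c (A.pr i x)) ∧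
    ∀ i x j y, A.cmem c (A.pr i x) → A.cmem c (A.pr j y) → (i = j → x = y) ∧ (A.lt i j → A.lt x y)

/-- `x` is an entry of the sequence coded by `c`. -/
def entry (c x : A.M) : Prop := ∃ i, A.cmem c (A.pr i x)

/-- `FS`, that is `∀ n FS(n)` with `n` ranging over all of `M`: whenever `F ∈ S` is the graph
`{(c, f(c))}` of a function on the increasing `n`-tuples `c`, there is an unbounded `X ∈ S` such
that, for every increasing `n`-tuple `c` with all entries in `X`, `f(c) ∉ X` or `f(c)` is an entry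
of `c`. -/
def FreeSet : Prop :=
  ∀ n, ∀ F ∈ A.S, (∀ c, A.IsTuple n c → ∃! z, A.pr c z ∈ F) →
    ∃ X ∈ A.S, (∀ b, ∃ x ∈ X, A.lt b x) ∧
      ∀ c, A.IsTuple n c → (∀ x, A.entry c x → x ∈ X) →
        ∀ z, A.pr c z ∈ F → z ∉ X ∨ A.entry c z

/-- The scheme of `Σ⁰₁` separation: disjoint `Σ⁰₁` classes `∃ y θ`, `∃ y η` are separated by a set
in `S`. -/
def Sep1 : Prop :=
  ∀ (θ η : Fm) (v : List A.M) (V : List (Set A.M)), (∀ X ∈ V, X ∈ A.S) →
    (∀ x, ¬ ((∃ y, A.Sat V θ (y :: x :: v)) ∧ ∃ y, A.Sat V η (y :: x :: v))) →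
    ∃ X ∈ A.S, ∀ x, ((∃ y, A.Sat V θ (y :: x :: v)) → x ∈ X) ∧
      ((∃ y, A.Sat V η (y :: x :: v)) → x ∉ X)

end Pool.Agent.FreeSOA.Str
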