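import Pool.Agent.Lib.MP_3ec3f9_lc.Main
import Pool.Agent.Lib.MP_3ec3f9_lc.H33Defs

/-!
Transfer of the coding predicates between the cut model and the natural numbers.
-/

namespace Pool.Agent.FreeSOA

open Filter

/-- Shift of the number variables. -/
def Tm.up : Tm → Tm
  | .var i => .var (i + 1)
  | .zero => .zero
  | .one => .one
  | .add s t => .add s.up t.up
  | .mul s t => .mul s.up t.up

theorem Str.val_up (A : Str) (x : A.M) (v : List A.M) : ∀ t : Tm, A.val (x :: v) t.up = A.val v t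
  | .var _ => rfl
  | .zero => rfl
  | .one => rfl
  | .add s t => by rw [Tm.up, val_add, val_add, val_up A x v s, val_up A x v t]
  | .mul s t => by rw [Tm.up, val_mul, val_mul, val_up A x v s, val_up A x v t]

/-- Predicates given by one bounded formula in the standard model and in all cut models. -/
def Dl (D : ∀ A : Str, List A.M → Prop) : Prop :=
  ∃ φ : Fm, (∀ V v, D std v ↔ std.Sat V φ v) ∧ ∀ (Y : Sys) V v, D Y.str v ↔ Y.str.Sat V φ v

namespace Dl

variable {D E : ∀ A : Str, List A.M → Prop}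

theorem los (h : Dl D) (Y : Sys) (v : List Y.M) :
    D Y.str v ↔ ∀ᶠ k in UU, D std (v.map (Sys.rep · k)) := by
  obtain ⟨φ, h1, h2⟩ := h
  rw [h2 Y [] v]
  simp only [h1 []]
  exact Sys.los (Y := Y) [] (by simp) φ v

theorem eq (s t : Tm) : Dl fun A v => A.val v s = A.val v t :=
  ⟨.eq s t, fun _ _ => Iff.rfl, fun _ _ _ => Iff.rfl⟩

theorem lt (s t : Tm) : Dl fun A v => A.lt (A.val v s) (A.val v t) :=
  ⟨.lt s t, fun _ _ => Iff.rfl, fun _ _ _ => Iff.rfl⟩

theorem not (h : Dl D) : Dl fun A v => ¬ D A v :=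
  h.elim fun φ h => ⟨.not φ, fun V v => not_congr (h.1 V v), fun Y V v => not_congr (h.2 Y V v)⟩

theorem and (h : Dl D) (h' : Dl E) : Dl fun A v => D A v ∧ E A v :=
  h.elim fun φ h => h'.elim fun ψ h' => ⟨.and φ ψ, fun V v => and_congr (h.1 V v) (h'.1 V v),
    fun Y V v => and_congr (h.2 Y V v) (h'.2 Y V v)⟩

theorem congr (h : Dl D) (e : ∀ A v, E A v ↔ D A v) : Dl E :=
  h.elim fun φ h => ⟨φ, fun V v => (e _ v).trans (h.1 V v), fun Y V v => (e _ v).trans (h.2 Y V v)⟩

theorem imp (h : Dl D) (h' : Dl E) : Dl fun A v => D A v → E A v :=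
  (h.and h'.not).not.congr fun _ _ => by tauto

theorem iff (h : Dl D) (h' : Dl E) : Dl fun A v => D A v ↔ E A v :=
  ((h.imp h').and (h'.imp h)).congr fun _ _ => iff_def

theorem all (t : Tm) (h : Dl D) (hb : ∀ y v, ¬ D std (y :: v) → y ≤ std.val v t) :
    Dl fun A v => ∀ y, D A (y :: v) := by
  obtain ⟨φ, h1, h2⟩ := id h
  refine ⟨.ball (.add t .one) φ, fun V v => ⟨fun H x _ => (h1 V _).1 (H x), fun H y => ?_⟩,
    fun Y V v => ⟨fun H x _ => (h2 Y V _).1 (H x), fun H y => ?_⟩⟩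
  · by_contra hn
    exact hn ((h1 V _).2 (H y (Nat.lt_succ_of_le (hb y v hn))))
  · by_contra hn
    refine hn ((h2 Y V _).2 (H y ?_))
    rw [h.los, ← Ultrafilter.eventually_not] at hn
    filter_upwards [hn, Sys.rep_val v (.add t .one)] with k a1 a2
    rw [a2]
    exact Nat.lt_succ_of_le (hb _ _ a1)

theorem ex (t : Tm) (h : Dl D) (hb : ∀ y v, D std (y :: v) → y ≤ std.val v t) :
    Dl fun A v => ∃ y, D A (y :: v) :=
  (h.not.all t fun y v hn => hb y v (not_not.1 hn)).not.congr fun _ _ => by simp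

theorem sub {P : ∀ A : Str, A.M → A.M → Prop}
    (h : Dl fun A v => P A (A.val v (.var 0)) (A.val v (.var 1))) (s t : Tm) :
    Dl fun A v => P A (A.val v s) (A.val v t) := by
  refine (((eq (.var 0) t.up).and (((eq (.var 0) s.up.up).and h).ex s.up fun y v h => ?_)).ex t
    fun y v h => ?_).congr fun A v => ?_
  · exact (h.1.trans (std.val_up _ _ _)).le
  · exact (h.1.trans (std.val_up _ _ _)).le
  · simp only [Str.val_up]
    exact ⟨fun h => ⟨_, rfl, _, rfl, h⟩, fun ⟨y, a, x, b, h⟩ => by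
      obtain rfl : y = _ := a
      obtain rfl : x = _ := b
      exact h⟩

end Dl

theorem npr_left (x y : ℕ) : x ≤ npr x y := Nat.le_add_left _ _

theorem npr_right (x y : ℕ) : y ≤ npr x y := by
  unfold npr
  nlinarith

theorem cmem_le {c i : ℕ} (h : std.cmem c i) : i ≤ c := by
  obtain ⟨k, m, n, d, rfl, h, -⟩ := h
  exact (le_of_lt h).trans (npr_left _ _)

theorem formD : Dl fun A v => ∃ k m n, A.val v (.var 0) = A.pr k (A.pr m n) :=
  (((Dl.eq (.var 3) (tpr (.var 2) (tpr (.var 1) (.var 0)))).ex (.var 2)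
    fun _ _ h => (((npr_right _ _).trans (npr_right _ _)).trans_eq h.symm :)).ex (.var 1)
    fun _ _ ⟨_, h⟩ => (((npr_left _ _).trans (npr_right _ _)).trans_eq h.symm :)).ex (.var 0)
    fun _ _ ⟨_, _, h⟩ => ((npr_left _ _).trans_eq h.symm :)

theorem cmemD (s t : Tm) : Dl fun A v => A.cmem (A.val v s) (A.val v t) := by
  refine Dl.sub (P := Str.cmem) ?_ s t
  exact (((((Dl.eq (.var 4) (tpr (.var 3) (tpr (.var 2) (.var 1)))).and
    ((Dl.lt (.var 5) (.var 3)).and (Dl.eq (.var 1)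
      (.mul (.add (.mul (.var 2) (.add (.var 5) .one)) .one) (.var 0))))).ex (.var 0)
    fun _ _ h => ((Nat.le_mul_of_pos_left _ (Nat.succ_pos _)).trans_eq h.2.2.symm :)).ex (.var 2)
    fun _ _ ⟨_, h, _⟩ => (((npr_right _ _).trans (npr_right _ _)).trans_eq h.symm :)).ex (.var 1)
    fun _ _ ⟨_, _, h, _⟩ => (((npr_left _ _).trans (npr_right _ _)).trans_eq h.symm :)).ex (.var 0)
    fun _ _ ⟨_, _, _, h, _⟩ => ((npr_left _ _).trans_eq h.symm :)

theorem codeD : Dl fun A v => A.IsCode (A.val v (.var 0)) :=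
  formD.and (((Dl.lt (.var 0) (.var 1)).imp (formD.imp
    (((cmemD (.var 2) (.var 0)).iff (cmemD (.var 1) (.var 0))).all (.add (.var 0) (.var 1))
      fun _ _ h => by
        by_contra hn
        exact h ⟨fun a => (hn ((cmem_le a).trans (Nat.le_add_left _ _))).elim,
          fun a => (hn ((cmem_le a).trans (Nat.le_add_right _ _))).elim⟩).not)).all (.var 0)
    fun _ _ h => le_of_lt (of_not_imp h))

theorem entryD : Dl fun A v => A.entry (A.val v (.var 1)) (A.val v (.var 0)) :=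
  (cmemD (.var 2) (tpr (.var 0) (.var 1))).ex (.var 1)
    fun _ _ h => ((npr_left _ _).trans (cmem_le h) :)

theorem tupleD : Dl fun A v => A.IsTuple (A.val v (.var 1)) (A.val v (.var 0)) :=
  codeD.and ((((cmemD (.var 1) (.var 0)).imp
    (((Dl.eq (.var 2) (tpr (.var 1) (.var 0))).ex (.var 1)
      fun _ _ h => ((npr_right _ _).trans_eq h.symm :)).ex (.var 0)
      fun _ _ ⟨_, h⟩ => ((npr_left _ _).trans_eq h.symm :))).all (.var 0)
      fun _ _ h => cmem_le (of_not_imp h)).and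
    ((((Dl.lt (.var 0) (.var 2)).iff ((cmemD (.var 2) (tpr (.var 1) (.var 0))).ex (.var 1)
      fun _ _ h => ((npr_right _ _).trans (cmem_le h) :))).all (.add (.var 0) (.var 1))
      fun _ _ h => by
        by_contra hn
        exact h ⟨fun a => (hn ((le_of_lt a).trans (Nat.le_add_left _ _))).elim, fun ⟨_, a⟩ =>
          (hn (((npr_left _ _).trans (cmem_le a)).trans (Nat.le_add_right _ _))).elim⟩).and
    ((((((cmemD (.var 4) (tpr (.var 3) (.var 2))).imp
      ((cmemD (.var 4) (tpr (.var 1) (.var 0))).imp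
        (((Dl.eq (.var 3) (.var 1)).imp (Dl.eq (.var 2) (.var 0))).and
          ((Dl.lt (.var 3) (.var 1)).imp (Dl.lt (.var 2) (.var 0)))))).all (.var 3)
      fun _ _ h => by_contra fun hn => h fun _ a =>
        (hn ((npr_right _ _).trans (cmem_le a))).elim).all (.var 2)
      fun _ _ h => by_contra fun hn => h fun _ _ a =>
        (hn ((npr_left _ _).trans (cmem_le a))).elim).all (.var 1)
      fun _ _ h => by_contra fun hn => h fun _ _ a =>
        (hn ((npr_right _ _).trans (cmem_le a))).elim).all (.var 0)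
      fun _ _ h => by_contra fun hn => h fun _ _ _ a =>
        (hn ((npr_left _ _).trans (cmem_le a))).elim)))

theorem tuple_fun {n c : ℕ} (h : std.IsTuple n c) : ∃ g : Fin n → ℕ, StrictMono g ∧
    (∀ p, std.cmem c p ↔ ∃ i : Fin n, p = npr i (g i)) ∧ ∀ x, std.entry c x ↔ x ∈ Set.range g := by
  obtain ⟨-, h1, h2, h3⟩ := h
  choose g hg using fun i : Fin n => (h2 i).1 i.2
  have key : ∀ i x, std.cmem c (npr i x) → ∃ j : Fin n, i = j ∧ x = g j := fun i x a =>
    ⟨⟨i, (h2 i).2 ⟨x, a⟩⟩, rfl, (h3 _ _ _ _ a (hg _)).1 rfl⟩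
  refine ⟨g, fun i j hij => (h3 _ _ _ _ (hg i) (hg j)).2 hij, fun p => ⟨fun a => ?_, ?_⟩,
    fun x => ⟨fun ⟨i, a⟩ => ?_, ?_⟩⟩
  · obtain ⟨i, x, rfl⟩ := h1 p a
    obtain ⟨j, rfl, rfl⟩ := key i x a
    exact ⟨j, rfl⟩
  · rintro ⟨i, rfl⟩
    exact hg i
  · obtain ⟨j, -, rfl⟩ := key i x a
    exact ⟨j, rfl⟩
  · rintro ⟨i, rfl⟩
    exact ⟨i, hg i⟩

theorem tuple_card {n c : ℕ} (h : std.IsTuple n c) :
    ∃ s : Finset ℕ, s.card ≤ n ∧ ∀ x, x ∈ s ↔ std.entry c x := by
  obtain ⟨g, -, -, hg⟩ := tuple_fun h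
  exact ⟨Finset.univ.image g, Finset.card_image_le.trans (by simp), fun x => by simp [hg]⟩

theorem tuple_uniq {n c c' : ℕ} (h : std.IsTuple n c) (h' : std.IsTuple n c')
    (e : ∀ x, std.entry c x ↔ std.entry c' x) : c = c' := by
  obtain ⟨g, a1, a2, a3⟩ := tuple_fun h
  obtain ⟨g', b1, b2, b3⟩ := tuple_fun h'
  obtain rfl : g = g' := (a1.range_inj b1).1 (Set.ext fun x => by rw [← a3, ← b3, e])
  have key : ∀ p, std.cmem c p ↔ std.cmem c' p := fun p => by rw [a2, b2]
  rcases lt_trichotomy c c' with hlt | heq | hlt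
  · exact absurd (fun p => (key p).symm) (h'.1.2 c hlt h.1.1)
  · exact heq
  · exact absurd key (h.1.2 c' hlt h'.1.1)

end Pool.Agent.FreeSOA
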