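import Pool.Agent.Lib.MP_3ec3f9_lc.H33Thin
import Pool.Agent.Lib.MP_3ec3f9_lc.Ambient

/-!
Free sets for maps on finite sets of bounded size, on two-coloured trees.
-/

namespace Pool.Agent.FreeSOA

open Finset Amb

/-- Freeness for a set-valued map on sets of size at most `n`. -/
def UN (n h : ℕ) : Prop := ∀ q β : ℕ → ℕ, ∃ β' : ℕ → ℕ, ∀ (A : Amb) (m a : ℕ) (G : Set ℕ)
    (Φ : Finset ℕ → Finset ℕ), (∀ s, (Φ s).card ≤ q a) → A.Good β' (h + 1) m a G →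
    A.Ref β (h + 1) m a G (fun G' => ∀ s : Finset ℕ, (s : Set ℕ) ⊆ G' → s.card ≤ n → ∀ z ∈ G',
      (∀ x ∈ s, A.L (m + h) x ≠ A.L (m + h) z) → z ∉ Φ s)

/-- The same for a family of nodes. -/
def FN (n h : ℕ) : Prop := ∀ q β : ℕ → ℕ, ∃ β' : ℕ → ℕ, ∀ (A : Amb) (m a : ℕ) (B : Finset ℕ)
    (G : Set ℕ) (Φ : Finset ℕ → Finset ℕ), (∀ s, (Φ s).card ≤ q a) → B.card ≤ q a →
    (∀ b ∈ B, a ≤ b) → (∀ b ∈ B, A.Good β' (h + 1) m b G) →
    ∃ G' ⊆ G, (∀ y ∈ G', A.L m y ∈ B) ∧ (∀ b ∈ B, A.Good β (h + 1) m b G') ∧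
      ∀ s : Finset ℕ, (s : Set ℕ) ⊆ G' → s.card ≤ n → ∀ z ∈ G',
        (∀ x ∈ s, A.L (m + h) x ≠ A.L (m + h) z) → z ∉ Φ s

theorem FN.zero (h : ℕ) : FN 0 h := by
  intro q β
  obtain ⟨q', hq'⟩ := exists_mono q
  obtain ⟨β₀, h₀⟩ := claimAV h q' β
  refine ⟨β₀, fun A m a B G Φ hΦ _ hab hk => ?_⟩
  obtain ⟨G₀, hG₀, hn, hk₁, hP⟩ := fam fun b hb => h₀ A m b G (Φ ∅)
    ((hΦ _).trans (hq' _ _ (hab b hb))) (hk b hb)
  refine ⟨G₀, hG₀, hn, hk₁, fun s _ hs z hz _ => ?_⟩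
  rw [card_eq_zero.1 (Nat.le_zero.1 hs)]
  exact hP _ (hn z hz) z ⟨hz, rfl⟩

theorem FN.succ {n h : ℕ} (H : UN (n + 1) h) (ih : FN n h) : FN (n + 1) h := by
  classical
  intro q β
  obtain ⟨r, hr⟩ := thin (h + 1) (n + 1)
  obtain ⟨q', hq'⟩ := exists_mono q
  obtain ⟨β₂, h₂⟩ := ih (fun a => q a * (r * q a) + q a) β
  obtain ⟨β₁, h₁⟩ := hr.par (fun b => 2 ^ b) β₂
  obtain ⟨β₀, h₀⟩ := H (fun b => 2 ^ b * q' b) β₁
  refine ⟨β₀, fun A m a B G Φ hΦ hB hab hk₀ => ?_⟩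
  obtain ⟨G₀, hG₀, -, hk₁, hP₀⟩ := fam fun b hb => h₀ A m b G
    (fun s => (range b).powerset.biUnion fun u => Φ (u ∪ s)) (fun s =>
      (card_biUnion_le_card_mul _ _ (q' b) fun u _ => (hΦ _).trans (hq' _ _ (hab b hb))).trans
        (by simp)) (hk₀ b hb)
  obtain ⟨G₁, hG₁, -, hk₂, hP₁⟩ := fam fun b hb => h₁ A m b G₀ (Finset ℕ) (range b).powerset
    (range b).powerset (fun u s => Φ (u ∪ s) ∩ range b) (by simp) (by simp)
    (fun _ _ => mem_powerset.2 inter_subset_right) (hk₁ b hb)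
  choose! D hD hfD using hP₁
  obtain ⟨G₂, hG₂, hn, hk₃, hP₂⟩ := h₂ A m a B G₁
    (fun u => B.biUnion fun b => ((D b u).filter fun d => d.card ≤ q a).biUnion id)
    (fun u => ((card_biUnion_le_card_mul _ _ (r * q a) fun b hb =>
      (card_biUnion_le_card_mul _ _ (q a) fun d hd => (mem_filter.1 hd).2).trans
        (Nat.mul_le_mul_right _ ((card_filter_le _ _).trans (hD b hb u)))).trans
          (Nat.mul_le_mul_right _ hB)).trans (Nat.le_add_right _ _))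
    (hB.trans (Nat.le_add_left _ _)) hab hk₂
  refine ⟨G₂, (hG₂.trans hG₁).trans hG₀, hn, hk₃, fun s hs hc z hz hsep hzs => ?_⟩
  by_cases hle : ∀ x ∈ s, A.L m x ≤ A.L m z
  · refine hP₀ _ (hn z hz) (s.filter fun x => ¬ x < A.L m z)
      (fun x hx => ⟨hG₁ (hG₂ (hs (mem_filter.1 hx).1)), split_top A hle x hx⟩)
      ((card_filter_le _ _).trans hc) z ⟨hG₁ (hG₂ hz), rfl⟩
      (fun x hx => hsep x (mem_filter.1 hx).1) (mem_biUnion.2 ⟨_, low_mem s _, ?_⟩)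
    rwa [filter_union_filter_not_eq]
  · push Not at hle
    obtain ⟨x₀, hx₀, hlt⟩ := hle
    have hne : s.Nonempty := ⟨x₀, hx₀⟩
    have hy := s.max'_mem hne
    have hle : ∀ x ∈ s, A.L m x ≤ A.L m (s.max' hne) := fun x hx => A.mono m (s.le_max' x hx)
    generalize s.max' hne = y at hy hle
    have hb := hn y (hs hy)
    have a1 := hfD _ hb _ (low_mem s _) (s.filter fun x => ¬ x < A.L m y)
      (fun x hx => ⟨hG₂ (hs (mem_filter.1 hx).1), split_top A hle x hx⟩)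
      ((card_filter_le _ _).trans hc)
    rw [filter_union_filter_not_eq] at a1
    refine hP₂ (s.filter fun x => x < A.L m y) (fun x hx => hs (mem_filter.1 hx).1)
      (card_low A hy hc) z hz (fun x hx => hsep x (mem_filter.1 hx).1)
      (mem_biUnion.2 ⟨_, hb, mem_biUnion.2 ⟨_, mem_filter.2 ⟨a1,
        (card_le_card inter_subset_left).trans (hΦ s)⟩, ?_⟩⟩)
    exact mem_inter.2 ⟨hzs, mem_range.2 (A.lt_of_lt (hlt.trans_le (hle _ hx₀)))⟩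

theorem FN.un {n h : ℕ} (H : FN n h) : UN n (h + 1) := by
  intro q β
  obtain ⟨β₀, h₀⟩ := H (fun a => q a + 2 * (β a + 1)) β
  refine ⟨fun a => β₀ a + β a, ?_⟩
  rintro A m a G Φ hΦ ⟨B₀, hB₀, hk₀⟩
  obtain ⟨B, hBB, hBc, hB⟩ := cut (n := β a) fun c => (Nat.le_add_left _ _).trans_lt (hB₀ c)
  have ha : ∀ b ∈ B, A.L m b = a := fun b hb => (hk₀ b (hBB hb)).1
  obtain ⟨G', hG', -, hk, hP⟩ := h₀ A (m + 1) a B G Φ
    (fun x => (hΦ x).trans (Nat.le_add_right _ _)) (hBc.trans (Nat.le_add_left _ _))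
    (fun b hb => A.le_of_eq (ha b hb)) fun b hb =>
      (hk₀ b (hBB hb)).2.mono (fun _ => Nat.le_add_right _ _) fun _ h _ => h
  refine ref_succ B hG' hB ha hk fun s hs hc z hz hsep => hP s (fun x hx => (hs hx).1) hc z hz.1 ?_
  rwa [show m + 1 + h = m + (h + 1) by omega]

theorem claimUN (h : ℕ) : ∀ n, UN n h := by
  induction h with
  | zero =>
    intro n q β
    obtain ⟨β₀, h₀⟩ := claimAV 0 q β
    refine ⟨β₀, fun A m a G Φ hΦ hG => ?_⟩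
    obtain ⟨G', h1, h2, h3, h4⟩ := h₀ A m a G (Φ ∅) (hΦ _) hG
    refine ⟨G', h1, h2, h3, fun s hs _ z hz hsep => ?_⟩
    rw [eq_empty_of_forall_notMem fun x hx => hsep x hx ((h2 x (hs hx)).trans (h2 z hz).symm)]
    exact h4 z hz
  | succ h ih =>
    intro n
    refine FN.un ?_
    induction n with
    | zero => exact FN.zero h
    | succ n ihn => exact FN.succ (ih _) ihn

theorem Amb.Good.mono' {A : Amb} {β β' : ℕ → ℕ} {G : Set ℕ} :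
    ∀ {h m a : ℕ}, (∀ b, a ≤ b → β b ≤ β' b) → A.Good β' h m a G → A.Good β h m a G
  | 0, _, _, _, hG => hG
  | _ + 1, _, a, hβ, ⟨B, hB, hk⟩ =>
    ⟨B, fun c => (hβ a le_rfl).trans_lt (hB c), fun b hb => ⟨(hk b hb).1,
      Amb.Good.mono' (fun c hc => hβ c ((A.le_of_eq (hk b hb).1).trans hc)) (hk b hb).2⟩⟩

/-- The combined step, free for all sets of size at most `a`. -/
theorem stepN (h : ℕ) (β : ℕ → ℕ) : ∃ β' : ℕ → ℕ, ∀ (A : Amb) (m a : ℕ) (G : Set ℕ)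
    (f : Finset ℕ → ℕ) (D : Set ℕ) (c : Bool), A.Good β' (h + 3) m a G →
    ∃ b, ∃ G' ⊆ G, A.Good β h (m + 1) b G' ∧ A.L m b = a ∧ A.lam m b = c ∧ (a + 1) ^ 2 ≤ b ∧
      (∃ y ∈ G', a ≤ y ∧ y < b) ∧
      ((∃ D' : Finset ℕ, D'.card ≤ a ∧ D ⊆ D') → ∀ y ∈ D, A.L (m + 1) y ≠ b) ∧
      ∀ s : Finset ℕ, (s : Set ℕ) ⊆ G' → s.card ≤ a → f s ∈ G' → f s ∈ s := by
  obtain ⟨β₁, h₁⟩ := step h β
  choose β₀ h₀ using fun n => claimUN (h + 2) n (fun _ => 1) β₁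
  refine ⟨fun b => (range (b + 1)).sup fun n => β₀ n b, fun A m a G f D c hG => ?_⟩
  obtain ⟨G₁, hG₁, -, hg, hP⟩ := h₀ a A m a G (fun s => {f s}) (by simp)
    (hG.mono' fun b hb => le_sup (f := fun n => β₀ n b) (mem_range.2 (Nat.lt_succ_of_le hb)))
  obtain ⟨b, G', hG', p1, p2, p3, p4, p5, p6, -⟩ := h₁ A m a _ (fun _ _ => 0) D c
    (Good.single (m + (h + 2)) rfl hg.trunc)
  refine ⟨b, G', fun y hy => hG₁ (hG' hy).1, p1, p2, p3, p4, p5, p6, fun s hs hc hf => ?_⟩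
  by_contra hn
  refine hP s (fun x hx => (hG' (hs hx)).1) hc _ (hG' hf).1 (fun x hx he => hn ?_)
    (mem_singleton_self _)
  rwa [le_antisymm ((hG' hf).2 x (hG' (hs hx)).1 he) ((hG' (hs hx)).2 _ (hG' hf).1 he.symm)]

/-- The hierarchy of largeness notions, the ambient trees and the step as functions. -/
theorem exists_systemN : ∃ (A : ℕ → Amb) (Large : ℕ → ℕ → ℕ → Set ℕ → Prop) (a₀ : ℕ → ℕ),
    (∀ k, 2 ^ k ≤ a₀ k ∧ Large k 0 (a₀ k) Set.univ) ∧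
    ∀ (k j a : ℕ) (G : Set ℕ) (f : Finset ℕ → ℕ) (D : Set ℕ) (c : Bool), ∃ p : ℕ × Set ℕ,
      j < k → Large k j a G →
      p.2 ⊆ G ∧ Large k (j + 1) p.1 p.2 ∧ (A k).L j p.1 = a ∧ (A k).lam j p.1 = c ∧
      (a + 1) ^ 2 ≤ p.1 ∧ (∃ y ∈ p.2, a ≤ y ∧ y < p.1) ∧
      ((∃ D' : Finset ℕ, D'.card ≤ a ∧ D ⊆ D') → ∀ y ∈ D, (A k).L (j + 1) y ≠ p.1) ∧
      ∀ s : Finset ℕ, (s : Set ℕ) ⊆ p.2 → s.card ≤ a → f s ∈ p.2 → f s ∈ s := by
  choose nx hnx using stepN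
  let β : ℕ → ℕ → ℕ := fun n => Nat.rec (fun _ => 0) (fun n b => nx (3 * n) b) n
  refine ⟨fun k => amb (β k) (3 * k),
    fun k j a G => (amb (β k) (3 * k)).Good (β (k - j)) (3 * (k - j)) j a G,
    fun k => en (β k) (3 * k) (2 ^ k),
    fun k => ⟨(en_strictMono _ _).id_le _, amb_good _ _ _ _ _ (by omega)⟩, ?_⟩
  intro k j a G f D c
  by_cases hjk : j < k
  swap
  · exact ⟨(0, ∅), fun h => absurd h hjk⟩
  by_cases hG : (amb (β k) (3 * k)).Good (β (k - j)) (3 * (k - j)) j a G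
  swap
  · exact ⟨(0, ∅), fun _ h => absurd h hG⟩
  have hk : k - j = k - (j + 1) + 1 := by omega
  rw [hk] at hG
  obtain ⟨b, G', h⟩ := hnx (3 * (k - (j + 1))) (β (k - (j + 1))) _ j a G f D c hG
  exact ⟨(b, G'), fun _ _ => h⟩

end Pool.Agent.FreeSOA
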