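import Pool.Agent.Lib.MP_3ec3f9_lc.Main
import Pool.Agent.Lib.MP_3ec3f9_lc.H33Free

/-!
A semi-regular, non-regular cut with free sets for all exponents below the cut.
-/

namespace Pool.Agent.FreeSOA

open Filter

/-- The operations under which the families of sequences are closed. -/
noncomputable def opsN (dec : Set ℕ → ℕ → Finset ℕ → ℕ) (a₀ : ℕ → ℕ) (R : ℕ → Set ℕ)
    (St : ℕ → ℕ → ℕ → Set ℕ → (Finset ℕ → ℕ) → Set ℕ → Bool → ℕ × Set ℕ) :
    ℕ × Fm × Fm → ℕ → List ℕ → List (Set ℕ) → ℕ × Set ℕ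
  | (0, θ, η), _, v, V => (sInf {x | std.Sat V θ (x :: v)},
      {x | ∃ y, std.Sat V θ (y :: x :: v) ∧ ∀ y' ≤ y, std.Sat V η (y' :: x :: v)})
  | (1, θ, _), _, v, V => (sInf {x | ¬ ∃ y < v.headD 0, std.Sat V θ (y :: (x + 1) :: v.tail)},
      {w | ∃ x ≤ v.headD 0, w = sInf {y | std.Sat V θ (y :: x :: v.tail)}})
  | (2, _, _), _, _, _ => (0, Set.univ)
  | (3, _, _), k, _, _ => (1, R k)
  | (4, _, _), k, _, _ => (a₀ k, ∅)
  | (5, _, _), _, v, _ => (v.getD 0 0 + v.getD 1 0, ∅)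
  | (6, _, _), _, v, _ => (v.getD 0 0 * v.getD 1 0, ∅)
  | (j + 7, _, _), k, v, V => St k j (v.getD 0 0) (V.getD 0 ∅)
      (dec (V.getD 1 ∅) (v.getD 1 0)) (V.getD 2 ∅) (!(v.getD 1 0).testBit j)

theorem exists_sys (dec : Set ℕ → ℕ → Finset ℕ → ℕ) : ∃ Y : Sys, ¬ Y.str.BSigma2 ∧
    ∀ F ∈ Y.S, ∀ i ∈ Y.N, ∀ e, Y.Bd e → ∃ G ∈ Y.S, (∀ b : Y.M, ∃ x ∈ Sys.star G, Y.str.lt b x) ∧
      ∀ᶠ k in UU, ∀ s : Finset ℕ, (s : Set ℕ) ⊆ G k → s.card ≤ e k →
        dec (F k) (i k) s ∈ G k → dec (F k) (i k) s ∈ s := by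
  obtain ⟨A, Large, a₀, h₀, hSt⟩ := exists_systemN
  choose St hSt using hSt
  let R : ℕ → Set ℕ := fun k => {p | ∃ i u, p = npr i u ∧ ∀ l < k, i.testBit l = (A k).lam l u}
  obtain ⟨N, S, hNc, hSc, hcl⟩ := exists_closed (opsN dec a₀ R St)
  let φ₀ : Fm := .eq .zero .zero
  have m0 : (fun _ => 0) ∈ N := (hcl (2, φ₀, φ₀) [] [] (by simp) (by simp)).1
  have mU : (fun _ => Set.univ) ∈ S := (hcl (2, φ₀, φ₀) [] [] (by simp) (by simp)).2
  have m1 : (fun _ => 1) ∈ N := (hcl (3, φ₀, φ₀) [] [] (by simp) (by simp)).1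
  have mR : R ∈ S := (hcl (3, φ₀, φ₀) [] [] (by simp) (by simp)).2
  have ma : a₀ ∈ N := (hcl (4, φ₀, φ₀) [] [] (by simp) (by simp)).1
  obtain ⟨τ, hτ⟩ := (hSc.prod (hSc.prod hNc)).exists_eq_range
    ⟨(R, R, a₀), mR, mR, ma⟩
  have hτm : ∀ n, (τ n).1 ∈ S ∧ (τ n).2.1 ∈ S ∧ (τ n).2.2 ∈ N := fun n => by
    have : τ n ∈ S ×ˢ S ×ˢ N := hτ ▸ ⟨n, rfl⟩
    exact this
  have hτs : ∀ F ∈ S, ∀ D ∈ S, ∀ i ∈ N, ∀ j₀ : ℕ, ∃ j : ℕ, j₀ ≤ j ∧ τ j.unpair.1 = (F, D, i) := by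
    intro F hF D hD i hi j₀
    have : (F, D, i) ∈ Set.range τ := hτ ▸ ⟨hF, hD, hi⟩
    obtain ⟨n, hn⟩ := this
    exact ⟨Nat.pair n j₀, Nat.right_le_pair _ _, by simpa using hn⟩
  let s : ℕ → ℕ → ℕ × Set ℕ := fun j => Nat.rec (fun k => (a₀ k, Set.univ))
    (fun j p k => St k j (p k).1 (p k).2
      (dec ((τ j.unpair.1).1 k) ((τ j.unpair.1).2.2 k)) ((τ j.unpair.1).2.1 k)
      (!((τ j.unpair.1).2.2 k).testBit j)) j
  have hs : ∀ j k, s (j + 1) k = St k j (s j k).1 (s j k).2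
      (dec ((τ j.unpair.1).1 k) ((τ j.unpair.1).2.2 k)) ((τ j.unpair.1).2.1 k)
      (!((τ j.unpair.1).2.2 k).testBit j) := fun _ _ => rfl
  have hs0 : ∀ k, s 0 k = (a₀ k, Set.univ) := fun _ => rfl
  clear_value s
  have hmem : ∀ j, (fun k => (s j k).1) ∈ N ∧ (fun k => (s j k).2) ∈ S := by
    intro j
    induction j with
    | zero => simpa only [hs0] using ⟨ma, mU⟩
    | succ j ih =>
      simp only [hs]
      exact hcl (j + 7, φ₀, φ₀) [fun k => (s j k).1, (τ j.unpair.1).2.2]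
        [fun k => (s j k).2, (τ j.unpair.1).1, (τ j.unpair.1).2.1]
        (by simpa using ⟨ih.1, (hτm _).2.2⟩) (by simpa using ⟨ih.2, (hτm _).1, (hτm _).2.1⟩)
  have hL : ∀ j k, j ≤ k → Large k j (s j k).1 (s j k).2 := by
    intro j k
    induction j with
    | zero => exact fun _ => hs0 k ▸ (h₀ k).2
    | succ j ih =>
      intro hj
      rw [hs]
      exact (hSt _ _ _ _ _ _ _ hj (ih (by omega))).2.1
  have hP := fun j k (hj : j < k) => hs j k ▸ hSt k j (s j k).1 (s j k).2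
    (dec ((τ j.unpair.1).1 k) ((τ j.unpair.1).2.2 k)) ((τ j.unpair.1).2.1 k)
    (!((τ j.unpair.1).2.2 k).testBit j) hj (hL j k hj.le)
  have hmono : ∀ j j' k, j ≤ j' → j' ≤ k → (s j k).1 ≤ (s j' k).1 ∧ (s j' k).2 ⊆ (s j k).2 := by
    intro j j' k h hk
    induction h with
    | refl => exact ⟨le_rfl, subset_rfl⟩
    | step _ ih =>
      have h1 := hP _ k hk
      have h2 := ih (Nat.le_of_succ_le hk)
      exact ⟨h2.1.trans ((A k).le_of_eq h1.2.2.1), h1.1.trans h2.2⟩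
  have hchain : ∀ j j' k, j ≤ j' → j' < k → (A k).L j (s (j' + 1) k).1 = (s j k).1 := by
    intro j j' k h hk
    induction h with
    | refl => exact (hP _ k hk).2.2.1
    | step h ih =>
      rw [← (A k).comp_le (Nat.le_succ_of_le h), (hP _ k hk).2.2.1, ih (Nat.lt_of_succ_lt hk)]
  have hsand : ∀ j j', ∀ᶠ k in UU, ∀ y, (s j k).1 ≤ y → y ≤ (s j' k).1 →
      (A k).L j y = (s j k).1 := by
    intro j j'
    filter_upwards [ev_gt (max j j')] with k hk y h1 h2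
    have h3 := hchain j (max j j') k (le_max_left _ _) hk
    have h4 := (hmono j' (max j j' + 1) k (by omega) hk).1
    have h5 := (A k).mono j (h2.trans h4)
    have h6 := (A k).mono j h1
    rw [← h3, (A k).idem] at h6
    omega
  let Y : Sys :=
    { N := N
      S := S
      a := fun j k => (s j k).1
      a_mem := fun j => (hmem j).1
      a_sq := fun j => (ev_gt j).mono fun k hk => (hP j k hk).2.2.2.2.1
      zero_mem := m0
      one_mem := m1
      add_mem := fun x hx y hy => (hcl (5, φ₀, φ₀) [x, y] [] (by simpa using ⟨hx, hy⟩) (by simp)).1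
      mul_mem := fun x hx y hy => (hcl (6, φ₀, φ₀) [x, y] [] (by simpa using ⟨hx, hy⟩) (by simp)).1
      sk_mem := fun θ v V hv hV => (hcl (0, θ, θ) v V hv hV).1
      ca_mem := fun θ η v V hv hV => (hcl (0, θ, η) v V hv hV).2
      ind_mem := fun θ v V hv hV p hp =>
        (hcl (1, θ, θ) (p :: v) V (by simpa using ⟨hp, hv⟩) hV).1
      semireg := by
        rintro θ v V hv hV e he ⟨j₀, hj₀⟩
        have hD := (hcl (1, θ, θ) (e :: v) V (by simpa using ⟨he, hv⟩) hV).2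
        obtain ⟨j, hj, hτj⟩ := hτs _ hD _ hD _ he (j₀ + 1)
        refine ⟨j + 1, fun j' => ?_⟩
        filter_upwards [hj₀, ev_gt j, hsand (j + 1) j'] with k h1 h2 h3 x hx hle
        have h4 := (hP j k h2).2.2.2.2.2.2.1
        rw [hτj] at h4
        by_contra hn
        refine h4 ⟨(Finset.range (e k + 1)).image
          (fun x => sInf {y | std.Sat (V.map (· k)) θ (y :: x :: v.map (· k))}), ?_, ?_⟩ _
          ⟨x, hx, rfl⟩ (h3 _ (not_lt.1 hn) hle)
        · refine Finset.card_image_le.trans ?_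
          have h5 := (hP j₀ k (by omega)).2.2.2.2.1
          have h6 := (hmono (j₀ + 1) j k hj h2.le).1
          rw [Finset.card_range]
          nlinarith
        · rintro _ ⟨x, hx, rfl⟩
          exact Finset.mem_coe.2 (Finset.mem_image.2
            ⟨x, Finset.mem_range.2 (Nat.lt_succ_of_le hx), rfl⟩) }
  refine ⟨Y, fun hB => ?_, ?_⟩
  swap
  · rintro F hF i hi e ⟨j₁, hj₁⟩
    obtain ⟨j, hj, hτj⟩ := hτs F hF F hF i hi j₁
    refine ⟨_, (hmem (j + 1)).2, fun b => ?_, ?_⟩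
    · obtain ⟨j₀, hj₀⟩ := Sys.rep_bd b
      obtain ⟨y, hy⟩ := Sys.wit (Y := Y) (.and (.mem (.var 0) 0) (.lt (.var 1) (.var 0))) [b]
        [fun k => (s (j + 1) k).2] (by simpa using (hmem (j + 1)).2)
        (Y.bd_a (max j j₀ + 1 + 1)) (by
          filter_upwards [hj₀, ev_gt (max j j₀ + 1)] with k h1 h2
          obtain ⟨y, hy, h3, h4⟩ := (hP _ k h2).2.2.2.2.2.1
          refine ⟨y, h4, (hmono (j + 1) _ k (by omega) h2).2 hy, ?_⟩
          have h5 := (hP (max j j₀) k (by omega)).2.2.2.2.1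
          have h6 := (hmono j₀ (max j j₀) k (by omega) (by omega)).1
          change Sys.rep b k < y
          change Sys.rep b k ≤ (s j₀ k).1 at h1
          nlinarith)
      exact ⟨y, hy.mono fun k hk => hk.2.1, hy.mono fun k hk => hk.2.2⟩
    · filter_upwards [hj₁, ev_gt j] with k h1 h2 t ht hc
      have h3 := (hP j k h2).2.2.2.2.2.2.2 t ht
        (hc.trans (le_trans h1 (hmono j₁ j k hj h2.le).1))
      rw [hτj] at h3
      exact h3
  · obtain ⟨b, hb⟩ := hB (.not (.and (.lt (.var 2) (.var 0)) (.mem (tpr (.var 3) (.var 0)) 0))) []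
      [Sys.star R] (by simpa using ⟨R, mR, rfl⟩) (Sys.el _ (Y.a_mem 0) (Y.bd_a 0)) (by
        intro i _
        obtain ⟨j, -, hτj⟩ := hτs R mR R mR _ (Sys.rep_mem i) 0
        refine ⟨Sys.el _ (Y.a_mem (j + 1)) (Y.bd_a (j + 1)), i, fun w ⟨h1, h2⟩ => ?_⟩
        obtain ⟨j', hj'⟩ := Sys.rep_bd w
        obtain ⟨k, h3, h4, h5, h6, h7, h8, h9⟩ := ((ev_gt j).and (hj'.and ((hsand (j + 1) j').and
          ((rep_pr i w).and ((Sys.rep_el _ (Y.a_mem (j + 1)) (Y.bd_a (j + 1))).and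
          (Eventually.and h1 h2)))))).exists
        change Sys.rep (Y.str.pr i w) k ∈ R k at h9
        change Sys.rep (Sys.el _ (Y.a_mem (j + 1)) (Y.bd_a (j + 1))) k < Sys.rep w k at h8
        rw [h7] at h8
        rw [h6] at h9
        obtain ⟨i', u, hp, hbit⟩ := h9
        obtain ⟨rfl, rfl⟩ := npr_inj hp
        have h10 := (hP j k h3).2.2.2.1
        rw [hτj, ← h5 _ h8.le h4, (A k).lam_comp, ← hbit j h3] at h10
        simp at h10)
    obtain ⟨i, hi⟩ := Sys.wit (Y := Y) (.mem (tpr (.var 0) (.var 1)) 0) [b] [R]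
      (by simpa using mR) (Y.bd_a 0) (Eventually.of_forall fun k => by
        obtain ⟨i, hi, hc⟩ := exists_code k (fun l => (A k).lam l (Sys.rep b k))
        refine ⟨i, ?_, i, _, rfl, hc⟩
        change i < (s 0 k).1
        rw [hs0]
        exact hi.trans_le (h₀ k).1)
    obtain ⟨j, hj, u, hu⟩ := hb i (by
      filter_upwards [hi, Sys.rep_el _ (Y.a_mem 0) (Y.bd_a 0)] with k h1 h2
      rw [h2]
      exact h1.1)
    refine hu b ⟨hj, ?_⟩
    change ∀ᶠ k in UU, Sys.rep (Y.str.pr i b) k ∈ R k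
    filter_upwards [hi, rep_pr i b] with k h1 h2
    rw [h2]
    exact h1.2

end Pool.Agent.FreeSOA
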