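import Pool.Agent.Lib.MP_3ec3f9_lc.H33Code
import Pool.Agent.Lib.MP_3ec3f9_lc.H33Sys

/-!
A model of `RCA₀`, `Σ⁰₁` separation and the free set principle for all exponents in which `BΣ⁰₂`
fails.
-/

namespace Pool.Agent.FreeSOA

open Filter

theorem Sys.sep1 (Y : Sys) : Y.str.Sep1 := by
  intro θ η v V₀ hV₀ h
  obtain ⟨V, hV, rfl⟩ := Sys.exists_list V₀ hV₀
  have hm := Y.ca_mem θ (.not η) (v.map Sys.rep) V (Sys.rep_mem' v) hV
  simp only [Sys.map_rep] at hm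
  refine ⟨_, ⟨_, hm, rfl⟩, fun x => ⟨fun ⟨y, hy⟩ => ?_, fun ⟨y₀, hy₀⟩ hx => ?_⟩⟩
  · have h2 : ∀ᶠ k in UU, ∀ y' ≤ Sys.rep y k,
        ¬ std.Sat (V.map (· k)) η (y' :: Sys.rep x k :: v.map (Sys.rep · k)) := by
      by_contra hn
      rw [← Ultrafilter.eventually_not] at hn
      obtain ⟨w, hw⟩ := Sys.wit η (x :: v) V hV ((Sys.rep_bd y).add Y.bd_one) (by
        filter_upwards [hn] with k hk
        push Not at hk
        obtain ⟨y', h3, h4⟩ := hk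
        exact ⟨y', Nat.lt_succ_of_le h3, h4⟩)
      exact h x ⟨⟨y, hy⟩, w, (Sys.los V hV η _).2 (hw.mono fun k hk => hk.2)⟩
    filter_upwards [(Sys.los V hV θ _).1 hy, h2] with k h3 h4
    exact ⟨_, h3, h4⟩
  · obtain ⟨y, hy⟩ := Sys.wit θ (x :: v) V hV (Sys.rep_bd y₀) (by
      filter_upwards [hx, (Sys.los V hV η _).1 hy₀] with k ⟨y, h1, h2⟩ h3
      exact ⟨y, lt_of_not_ge fun hle => h2 _ hle h3, h1⟩)
    exact h x ⟨⟨y, (Sys.los V hV θ _).2 (hy.mono fun k hk => hk.2)⟩, y₀, hy₀⟩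

theorem Sys.least {Y : Sys} {F : ℕ → Set ℕ} (hF : F ∈ Y.S) {c z : Y.M}
    (hu : ∃! w, Y.str.pr c w ∈ Sys.star F) (hz : Y.str.pr c z ∈ Sys.star F) :
    ∀ᶠ k in UU, sInf {w | npr (Sys.rep c k) w ∈ F k} = Sys.rep z k := by
  have hmin : ∀ᶠ k in UU, ¬ ∃ w < Sys.rep z k, npr (Sys.rep c k) w ∈ F k := by
    rw [Ultrafilter.eventually_not]
    intro hw
    obtain ⟨w, hw⟩ := Sys.wit (Y := Y) (.mem (tpr (.var 1) (.var 0)) 0) [c]
      [F] (by simpa using hF) (Sys.rep_bd z) hw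
    have hwF : Y.str.pr c w ∈ Sys.star F := by
      filter_upwards [hw, rep_pr c w] with k h1 h2
      rw [h2]
      exact h1.2
    obtain rfl := hu.unique hwF hz
    obtain ⟨k, hk⟩ := hw.exists
    exact lt_irrefl _ hk.1
  filter_upwards [hz, rep_pr c z, hmin] with k h1 h2 h3
  rw [h2] at h1
  have h4 := Sys.sInf_spec (fun w => npr (Sys.rep c k) w ∈ F k) h1
  exact le_antisymm h4.1 (not_lt.1 fun hlt => h3 ⟨_, hlt, h4.2⟩)

/-- The function on finite sets read from a graph on pairs or on codes of tuples. -/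
noncomputable def dec (F : Set ℕ) : ℕ → Finset ℕ → ℕ
  | 0, s => sInf {z | ∃ x y, x < y ∧ s = {x, y} ∧ npr (npr x y) z ∈ F}
  | n + 1, s => sInf {z | ∃ c, std.IsTuple n c ∧ (∀ x, x ∈ s ↔ std.entry c x) ∧ npr c z ∈ F}

theorem dec_pair (F : Set ℕ) {x y : ℕ} (h : x < y) :
    dec F 0 {x, y} = sInf {z | npr (npr x y) z ∈ F} := by
  refine congrArg sInf (Set.ext fun z => ⟨?_, fun hz => ⟨x, y, h, rfl, hz⟩⟩)
  rintro ⟨x', y', h', e, hz⟩
  have a1 : x' ∈ ({x, y} : Finset ℕ) := by simp [e]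
  have a2 : y' ∈ ({x, y} : Finset ℕ) := by simp [e]
  have a3 : x ∈ ({x', y'} : Finset ℕ) := by simp [← e]
  have a4 : y ∈ ({x', y'} : Finset ℕ) := by simp [← e]
  simp only [Finset.mem_insert, Finset.mem_singleton] at a1 a2 a3 a4
  obtain rfl : x' = x := by omega
  obtain rfl : y' = y := by omega
  exact hz

theorem dec_tuple (F : Set ℕ) {n c : ℕ} {s : Finset ℕ} (h : std.IsTuple n c)
    (hs : ∀ x, x ∈ s ↔ std.entry c x) : dec F (n + 1) s = sInf {z | npr c z ∈ F} := by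
  refine congrArg sInf (Set.ext fun z => ⟨?_, fun hz => ⟨c, h, hs, hz⟩⟩)
  rintro ⟨c', h', e, hz⟩
  obtain rfl := tuple_uniq h h' fun x => (hs x).symm.trans (e x)
  exact hz

theorem mainN : ∃ A : Str, A.IsRCA0 ∧ A.Sep1 ∧ A.FreeSet2 ∧ A.FreeSet ∧ ¬ A.BSigma2 := by
  obtain ⟨Y, hB, hY⟩ := exists_sys dec
  refine ⟨Y.str, Y.isRCA0, Y.sep1, ?_, ?_, hB⟩
  · rintro _ ⟨F, hF, rfl⟩ hfun
    obtain ⟨G, hG, hunb, hfree⟩ := hY F hF _ Y.zero_mem _ (Y.bd_one.add Y.bd_one)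
    refine ⟨_, ⟨G, hG, rfl⟩, hunb, fun x hx y hy hxy z hz => ?_⟩
    by_contra hn
    push Not at hn
    have key : ∀ᶠ k in UU, Sys.rep z k = Sys.rep x k ∨ Sys.rep z k = Sys.rep y k := by
      filter_upwards [hx, hy, hn.1, hxy, Sys.least hF (hfun x y hxy) hz, rep_pr x y, hfree]
        with k h1 h2 h3 h4 h5 h6 h7
      have h8 := h7 {Sys.rep x k, Sys.rep y k} (by simpa [Set.insert_subset_iff] using ⟨h1, h2⟩)
        Finset.card_le_two
      rw [dec_pair _ h4, ← h6, h5] at h8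
      simpa using h8 h3
    rcases Ultrafilter.eventually_or.1 key with h | h
    · exact hn.2.1 ((Sys.eq_iff _ _).2 h)
    · exact hn.2.2 ((Sys.eq_iff _ _).2 h)
  · rintro n _ ⟨F, hF, rfl⟩ hfun
    obtain ⟨G, hG, hunb, hfree⟩ := hY F hF _ (Y.add_mem _ (Sys.rep_mem n) _ Y.one_mem) _
      (Sys.rep_bd n)
    refine ⟨_, ⟨G, hG, rfl⟩, hunb, fun c hc hin z hz => ?_⟩
    by_contra hn
    push Not at hn
    have hsub : ∀ᶠ k in UU, ∀ x, std.entry (Sys.rep c k) x → x ∈ G k := by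
      by_contra hw
      rw [← Ultrafilter.eventually_not] at hw
      obtain ⟨φ, h1, -⟩ := entryD
      obtain ⟨w, hw⟩ := Sys.wit (Y := Y) (.and φ (.not (.mem (.var 0) 0))) [c] [G]
        (by simpa using hG) ((Sys.rep_bd c).add Y.bd_one) (by
          filter_upwards [hw] with k hk
          push Not at hk
          obtain ⟨x, ⟨i, a⟩, b⟩ := hk
          exact ⟨x, Nat.lt_succ_of_le ((npr_right _ _).trans (cmem_le a)),
            (h1 _ _).1 ⟨i, a⟩, b⟩)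
      have := hin w ((entryD.los Y [w, c]).2 (hw.mono fun k hk => (h1 _ _).2 hk.2.1))
      obtain ⟨k, a, b⟩ := (hw.and this).exists
      exact a.2.2 b
    refine hn.2 ((entryD.los Y [z, c]).2 ?_)
    filter_upwards [(tupleD.los Y [c, n]).1 hc, hsub, hn.1, Sys.least hF (hfun c hc) hz, hfree]
      with k h1 h2 h3 h4 h5
    change std.IsTuple (Sys.rep n k) (Sys.rep c k) at h1
    obtain ⟨s, a, b⟩ := tuple_card h1
    have h6 := h5 s (fun x hx => h2 x ((b x).1 hx)) a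
    rw [dec_tuple _ h1 b, h4] at h6
    exact (b _).1 (h6 h3)

end Pool.Agent.FreeSOA
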