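import Pool.Agent.Lib.MP_3ec3f9_lc.H33Code

/-!
Sanity check of the coding in the standard model: every strictly increasing tuple has a code.
-/

namespace Pool.Agent.FreeSOA

open Finset

theorem exists_setCode (X : Finset ℕ) : ∃ c, std.IsCode c ∧ ∀ i, std.cmem c i ↔ i ∈ X := by
  classical
  have hex : ∃ c, (∃ k m n, c = std.pr k (std.pr m n)) ∧ ∀ i, std.cmem c i ↔ i ∈ X := by
    set k := X.sup id + 1 with hk
    refine ⟨npr k (npr k.factorial (∏ i ∈ X, (k.factorial * (i + 1) + 1))), ⟨_, _, _, rfl⟩,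
      fun i => ⟨?_, fun hi => ?_⟩⟩
    · revert i
      intro (i : ℕ)
      rintro ⟨k', m, n, d, e, hi, hd⟩
      obtain ⟨rfl, e'⟩ := npr_inj e
      obtain ⟨rfl, rfl⟩ := npr_inj e'
      by_contra hn
      have hc : Nat.Coprime (k.factorial * (i + 1) + 1) (∏ i ∈ X, (k.factorial * (i + 1) + 1)) := by
        refine Nat.Coprime.prod_right fun j hj => ?_
        have hj' : j ≤ X.sup id := le_sup (f := id) hj
        have hi' : (i : ℕ) < X.sup id + 1 := hi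
        clear e e' hi hd
        rw [mul_comm _ (i + 1), mul_comm _ (j + 1)]
        rcases lt_trichotomy i j with h | rfl | h
        · exact Nat.coprime_mul_succ (Nat.dvd_factorial (by omega) (by omega))
        · exact absurd hj hn
        · exact (Nat.coprime_mul_succ (Nat.dvd_factorial (by omega) (by omega))).symm
      have h1 := hc.eq_one_of_dvd ⟨d, hd⟩
      have h2 : 0 < k.factorial * (i + 1) := Nat.mul_pos k.factorial_pos (Nat.succ_pos i)
      exact h2.ne' (Nat.succ_injective h1)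
    · obtain ⟨d, hd⟩ := dvd_prod_of_mem (fun i => k.factorial * (i + 1) + 1) hi
      exact ⟨_, _, _, d, rfl, Nat.lt_succ_of_le (le_sup (f := id) hi), hd⟩
  refine ⟨Nat.find hex, ⟨(Nat.find_spec hex).1, fun c' hlt hf he => ?_⟩, (Nat.find_spec hex).2⟩
  exact Nat.find_min hex hlt ⟨hf, fun i => (he i).symm.trans ((Nat.find_spec hex).2 i)⟩

theorem exists_tupleCode {n : ℕ} (g : Fin n → ℕ) (hg : StrictMono g) :
    ∃ c, std.IsTuple n c ∧ ∀ x, std.entry c x ↔ x ∈ Set.range g := by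
  obtain ⟨c, h1, h2⟩ := exists_setCode (univ.image fun i : Fin n => npr i (g i))
  have key : ∀ i x, std.cmem c (std.pr i x) ↔ ∃ j : Fin n, j = i ∧ g j = x := fun i x => by
    rw [h2, mem_image]
    exact ⟨fun ⟨j, _, e⟩ => ⟨j, npr_inj e⟩, fun ⟨j, a, b⟩ => ⟨j, mem_univ _, a ▸ b ▸ rfl⟩⟩
  refine ⟨c, ⟨h1, fun p hp => ?_, fun i => ⟨fun hi => ⟨_, (key _ _).2 ⟨⟨i, hi⟩, rfl, rfl⟩⟩,
    fun ⟨x, hx⟩ => ?_⟩, fun i x j y a b => ?_⟩, fun x => ⟨fun ⟨i, a⟩ => ?_, ?_⟩⟩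
  · obtain ⟨i, -, rfl⟩ := mem_image.1 ((h2 p).1 hp)
    exact ⟨_, _, rfl⟩
  · obtain ⟨j, rfl, -⟩ := (key _ _).1 hx
    exact j.2
  · obtain ⟨i, rfl, rfl⟩ := (key _ _).1 a
    obtain ⟨j, rfl, rfl⟩ := (key _ _).1 b
    exact ⟨fun e => congrArg g (Fin.ext e), fun e => hg e⟩
  · obtain ⟨j, -, rfl⟩ := (key _ _).1 a
    exact ⟨j, rfl⟩
  · rintro ⟨j, rfl⟩
    exact ⟨j, (key _ _).2 ⟨j, rfl, rfl⟩⟩

end Pool.Agent.FreeSOA
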