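import Pool.Agent.Lib.MP_3ec3f9_lc.Tree
import Pool.Agent.Lib.MP_3ec3f9_lc.H33Ramsey

/-!
Thinning for colourings of finite sets of bounded size on two-coloured trees.
-/

namespace Pool.Agent.FreeSOA

open Finset Amb

theorem ramseyT (K s ρ : ℕ) : ∃ N, ∀ (α : Type) (T : Finset α) (c : Finset ℕ → α),
    T.card ≤ K → (∀ S, c S ∈ T) → ∃ H ⊆ range N, H.card = ρ ∧
      ∀ S ⊆ H, ∀ S' ⊆ H, S.card = s → S'.card = s → c S = c S' := by
  obtain ⟨N, hN⟩ := ramsey_one (Fin K) s ρ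
  refine ⟨N, fun α T c hT hc => ?_⟩
  obtain ⟨e⟩ := Function.Embedding.nonempty_of_card_le (α := T) (β := Fin K) (by simpa using hT)
  obtain ⟨H, h1, h2, k, h3⟩ := hN ℕ (range N) (fun S => e ⟨c S, hc S⟩) (by simp)
  exact ⟨H, h1, h2, fun S a S' a' b b' =>
    congrArg Subtype.val (e.injective ((h3 S a b).trans (h3 S' a' b').symm))⟩

theorem par {ι α : Type} (S : Finset ι) (T : Finset α) (g : ι → Finset ℕ → α) {k : ℕ}
    (hS : S.card ≤ k) (hT : T.card ≤ k) (hg : ∀ i s, g i s ∈ T) :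
    ∃ (γ : Type) (T' : Finset γ) (f : Finset ℕ → γ) (π : Finset γ → ι → Finset α),
      T'.card ≤ (k + 1) ^ k ∧ (∀ s, f s ∈ T') ∧ (∀ D i, (π D i).card ≤ D.card) ∧
        ∀ D s, f s ∈ D → ∀ i ∈ S, g i s ∈ π D i := by
  classical
  refine ⟨S → α, Fintype.piFinset fun _ => T, fun s i => g i s,
    fun D i => if hi : i ∈ S then D.image (fun d => d ⟨i, hi⟩) else ∅, ?_,
    fun s => Fintype.mem_piFinset.2 fun i => hg _ _, fun D i => ?_, fun D s hs i hi => ?_⟩
  · rw [Fintype.card_piFinset, prod_const, card_univ, Fintype.card_coe]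
    exact (Nat.pow_le_pow_left (by omega) _).trans (Nat.pow_le_pow_right (Nat.succ_pos _) hS)
  · by_cases hi : i ∈ S
    · simp only [dif_pos hi]
      exact card_image_le
    · simp [hi]
  · simp only [dif_pos hi]
    exact mem_image.2 ⟨_, hs, rfl⟩

/-- A colouring of the sets of size at most `n` takes at most `r` values on a subtree. -/
def TB (n h r : ℕ) : Prop := ∀ q β : ℕ → ℕ, ∃ β' : ℕ → ℕ, ∀ (A : Amb) (m a : ℕ) (G : Set ℕ)
    (α : Type) (T : Finset α) (f : Finset ℕ → α), T.card ≤ q a → (∀ s, f s ∈ T) →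
    A.Good β' h m a G → A.Ref β h m a G (fun G' => ∃ D : Finset α, D.card ≤ r ∧
      ∀ s : Finset ℕ, (s : Set ℕ) ⊆ G' → s.card ≤ n → f s ∈ D)

/-- The same for a family of nodes; the values depend on the nodes met. -/
def FB (n h r : ℕ) : Prop := ∀ q β : ℕ → ℕ, ∃ β' : ℕ → ℕ, ∀ (A : Amb) (m a : ℕ) (B : Finset ℕ)
    (G : Set ℕ) (α : Type) (T : Finset α) (f : Finset ℕ → α), T.card ≤ q a → (∀ s, f s ∈ T) →
    B.card ≤ q a → (∀ b ∈ B, a ≤ b) → (∀ b ∈ B, A.Good β' h m b G) →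
    ∃ G' ⊆ G, (∀ y ∈ G', A.L m y ∈ B) ∧ (∀ b ∈ B, A.Good β h m b G') ∧
      ∃ E : Finset ℕ → Finset α, (∀ P, (E P).card ≤ r) ∧
        ∀ s : Finset ℕ, (s : Set ℕ) ⊆ G' → s.card ≤ n → f s ∈ E (s.image (A.L m))

theorem TB.par {n h r : ℕ} (H : TB n h r) (q β : ℕ → ℕ) : ∃ β' : ℕ → ℕ, ∀ (A : Amb) (m a : ℕ)
    (G : Set ℕ) (α : Type) (S : Finset (Finset ℕ)) (T : Finset α) (g : Finset ℕ → Finset ℕ → α),
    S.card ≤ q a → T.card ≤ q a → (∀ u s, g u s ∈ T) → A.Good β' h m a G →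
    A.Ref β h m a G (fun G' => ∃ D : Finset ℕ → Finset α, (∀ u, (D u).card ≤ r) ∧
      ∀ u ∈ S, ∀ s : Finset ℕ, (s : Set ℕ) ⊆ G' → s.card ≤ n → g u s ∈ D u) := by
  obtain ⟨β', h'⟩ := H (fun a => (q a + 1) ^ q a) β
  refine ⟨β', fun A m a G α S T g hS hT hg hG => ?_⟩
  obtain ⟨γ, T', f, π, p1, p2, p3, p4⟩ := FreeSOA.par S T g hS hT hg
  obtain ⟨G', h1, h2, h3, D, hD, hf⟩ := h' A m a G γ T' f p1 p2 hG
  exact ⟨G', h1, h2, h3, π D, fun u => (p3 D u).trans hD,
    fun u hu s a b => p4 D s (hf s a b) u hu⟩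

theorem split_top (A : Amb) {m y : ℕ} {s : Finset ℕ} (h : ∀ x ∈ s, A.L m x ≤ A.L m y) :
    ∀ x ∈ s.filter (fun x => ¬ x < A.L m y), A.L m x = A.L m y := fun x hx =>
  le_antisymm (h x (mem_filter.1 hx).1)
    ((A.idem m y).symm.trans_le (A.mono m (not_lt.1 (mem_filter.1 hx).2)))

theorem card_low (A : Amb) {m y n : ℕ} {s : Finset ℕ} (hy : y ∈ s) (hs : s.card ≤ n + 1) :
    (s.filter (fun x => x < A.L m y)).card ≤ n :=
  Nat.le_of_lt_succ ((card_lt_card ((filter_ssubset (p := fun x => x < A.L m y)).2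
    ⟨y, hy, not_lt.2 (A.le m y)⟩)).trans_le hs)

theorem low_mem (s : Finset ℕ) (b : ℕ) : s.filter (fun x => x < b) ∈ (range b).powerset :=
  mem_powerset.2 fun _ hx => mem_range.2 (mem_filter.1 hx).2

theorem FB.zero (h : ℕ) : FB 0 h 1 := by
  intro q β
  refine ⟨β, fun A m a B G α T f _ _ _ _ hk => ⟨{y | y ∈ G ∧ A.L m y ∈ B}, fun y hy => hy.1,
    fun y hy => hy.2, fun b hb => (hk b hb).mono (fun _ => le_rfl) fun y h1 h2 => ⟨h1, h2 ▸ hb⟩,
    fun _ => {f ∅}, by simp, fun s _ hs => ?_⟩⟩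
  rw [card_eq_zero.1 (Nat.le_zero.1 hs)]
  exact mem_singleton_self _

theorem FB.succ {n h r r' : ℕ} (H : TB (n + 1) h r) (ih : FB n h r') :
    FB (n + 1) h (r' * r + 1) := by
  classical
  intro q β
  obtain ⟨q', hq'⟩ := exists_mono q
  obtain ⟨β₁, h₁⟩ := ih (fun a => (2 ^ q a + 1) ^ 2 ^ q a + q a) β
  obtain ⟨β₀, h₀⟩ := H.par (fun b => 2 ^ b + q' b) β₁
  refine ⟨β₀, fun A m a B G α T f hT hf hB hab hk₀ => ?_⟩
  obtain ⟨G₀, hG₀, -, hk₁, hP₀⟩ := fam fun b hb => h₀ A m b G α (range b).powerset T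
    (fun u s => f (u ∪ s)) (by simp) ((hT.trans (hq' _ _ (hab b hb))).trans (Nat.le_add_left _ _))
    (fun _ _ => hf _) (hk₀ b hb)
  choose! D hD hfD using hP₀
  obtain ⟨γ, T', f', π, p1, p2, p3, p4⟩ := par B T.powerset (fun b u => D b u ∩ T) (k := 2 ^ q a)
    (hB.trans Nat.lt_two_pow_self.le)
    (by rw [card_powerset]; exact Nat.pow_le_pow_right two_pos hT)
    fun _ _ => mem_powerset.2 inter_subset_right
  obtain ⟨G₁, hG₁, hn, hk₂, E, hE, hfE⟩ := h₁ A m a B G₀ γ T' f' (p1.trans (Nat.le_add_right _ _)) p2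
    (hB.trans (Nat.le_add_left _ _)) hab hk₁
  refine ⟨G₁, hG₁.trans hG₀, hn, hk₂, fun P => insert (f ∅)
    (((π (E (P.erase (P.sup id))) (P.sup id)).filter fun d => d.card ≤ r).biUnion id),
    fun P => (card_insert_le _ _).trans (Nat.succ_le_succ ?_), fun s hs hc => ?_⟩
  · refine (card_biUnion_le_card_mul _ _ r fun d hd => (mem_filter.1 hd).2).trans ?_
    exact Nat.mul_le_mul_right _ ((card_filter_le _ _).trans ((p3 _ _).trans (hE _)))
  rcases s.eq_empty_or_nonempty with rfl | hne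
  · exact mem_insert_self _ _
  have hy := s.max'_mem hne
  have hle : ∀ x ∈ s, A.L m x ≤ A.L m (s.max' hne) := fun x hx => A.mono m (s.le_max' x hx)
  generalize s.max' hne = y at hy hle
  have e1 : (s.image (A.L m)).sup id = A.L m y :=
    le_antisymm (Finset.sup_le fun b hb => by
      obtain ⟨x, hx, rfl⟩ := mem_image.1 hb
      exact hle x hx) (le_sup (f := id) (mem_image_of_mem _ hy))
  have e2 : (s.image (A.L m)).erase (A.L m y) =
      (s.filter fun x => x < A.L m y).image (A.L m) := by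
    ext c
    simp only [mem_erase, mem_image, mem_filter]
    constructor
    · rintro ⟨h1, x, hx, rfl⟩
      exact ⟨x, ⟨hx, A.lt_of_lt (lt_of_le_of_ne (hle x hx) h1)⟩, rfl⟩
    · rintro ⟨x, ⟨hx, h1⟩, rfl⟩
      exact ⟨((A.le m x).trans_lt h1).ne, x, hx, rfl⟩
  have hb := hn y (hs hy)
  have a1 := hfD _ hb _ (low_mem s _) (s.filter fun x => ¬ x < A.L m y)
    (fun x hx => ⟨hG₁ (hs (mem_filter.1 hx).1), split_top A hle x hx⟩)
    ((card_filter_le _ _).trans hc)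
  rw [filter_union_filter_not_eq] at a1
  have a2 := p4 _ _ (hfE (s.filter fun x => x < A.L m y)
    (fun x hx => hs (mem_filter.1 hx).1) (card_low A hy hc)) _ hb
  refine mem_insert_of_mem (mem_biUnion.2 ⟨_, mem_filter.2 ⟨by rw [e1, e2]; exact a2,
    (card_le_card inter_subset_left).trans (hD _ hb _)⟩, mem_inter.2 ⟨a1, hf s⟩⟩)

theorem FB.tb {n h r : ℕ} (H : FB n h r) : TB n (h + 1) (2 ^ (2 * n) * r) := by
  classical
  intro q β
  choose N hN using fun a => ramseyT (2 ^ q a) n (β a + 1 + n)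
  obtain ⟨β₀, h₀⟩ := H (fun a => q a + 2 * (N a + 1)) β
  refine ⟨fun a => β₀ a + N a, ?_⟩
  rintro A m a G α T f hT hf ⟨B₀, hB₀, hk₀⟩
  obtain ⟨B, hBB, hBc, hB⟩ := cut (n := N a) fun c => (Nat.le_add_left _ _).trans_lt (hB₀ c)
  have ha : ∀ b ∈ B, A.L m b = a := fun b hb => (hk₀ b (hBB hb)).1
  obtain ⟨G', hG', -, hk, E, hE, hfE⟩ := h₀ A (m + 1) a B G α T f (hT.trans (Nat.le_add_right _ _))
    hf (hBc.trans (Nat.le_add_left _ _)) (fun b hb => A.le_of_eq (ha b hb)) fun b hb =>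
      (hk₀ b (hBB hb)).2.mono (fun _ => Nat.le_add_right _ _) fun _ h _ => h
  choose u hu hinj using fun c => exists_enum _ (N a) (hB c).le
  obtain ⟨I, hI, hIc, hh⟩ := hN a (Finset α) T.powerset
    (fun S => (S.image (u false) ∪ S.image (u true)).powerset.biUnion E ∩ T)
    (by rw [card_powerset]; exact Nat.pow_le_pow_right two_pos hT)
    fun _ => mem_powerset.2 inter_subset_right
  obtain ⟨S₀, hS₀, hS₀c⟩ := exists_subset_card_eq (s := I) (n := n) (by omega)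
  have hu' : ∀ c, ∀ i ∈ I, u c i ∈ B ∧ A.lam m (u c i) = c := fun c i hi =>
    mem_filter.1 (hu c i (mem_range.1 (hI hi)))
  have hmem : ∀ b ∈ I.image (u false) ∪ I.image (u true), ∃ i ∈ I, ∃ c, u c i = b := by
    intro b hb
    rcases mem_union.1 hb with hb | hb <;> obtain ⟨i, hi, e⟩ := mem_image.1 hb <;>
      exact ⟨i, hi, _, e⟩
  have hsub : ∀ b ∈ I.image (u false) ∪ I.image (u true), b ∈ B := fun b hb => by
    obtain ⟨i, hi, c, rfl⟩ := hmem b hb
    exact (hu' c i hi).1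
  choose! ix hix hcx using hmem
  refine ref_succ (I.image (u false) ∪ I.image (u true)) hG'
    (col_union (fun c => I.image (u c)) (fun c => ?_) fun c b hb => ?_)
    (fun b hb => ha b (hsub b hb)) (fun b hb => hk b (hsub b hb))
    ⟨(S₀.image (u false) ∪ S₀.image (u true)).powerset.biUnion E ∩ T, ?_, fun s hs hc => ?_⟩
  · rw [card_image_of_injOn ((hinj c).mono (coe_subset.2 hI))]
    omega
  · obtain ⟨i, hi, rfl⟩ := mem_image.1 hb
    exact (hu' c i hi).2
  · refine (card_le_card inter_subset_left).trans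
      ((card_biUnion_le_card_mul _ _ r fun P _ => hE P).trans (Nat.mul_le_mul_right _ ?_))
    rw [card_powerset]
    refine Nat.pow_le_pow_right two_pos ((card_union_le _ _).trans ?_)
    have h1 := card_image_le (s := S₀) (f := u false)
    have h2 := card_image_le (s := S₀) (f := u true)
    omega
  · obtain ⟨S, h1, h2, h3⟩ := exists_subsuperset_card_eq
      (s := s.image fun x => ix (A.L (m + 1) x)) (t := I) (n := n) (fun i hi => by
        obtain ⟨x, hx, rfl⟩ := mem_image.1 hi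
        exact hix _ (hs hx).2) (card_image_le.trans hc) (by omega)
    rw [← hh S h2 S₀ hS₀ h3 hS₀c]
    refine mem_inter.2 ⟨mem_biUnion.2 ⟨_, mem_powerset.2 fun b hb => ?_,
      hfE s (fun x hx => (hs hx).1) hc⟩, hf s⟩
    obtain ⟨x, hx, rfl⟩ := mem_image.1 hb
    obtain ⟨c, e⟩ := hcx _ (hs hx).2
    have h4 := mem_image_of_mem (u c) (h1 (mem_image_of_mem _ hx))
    rw [e] at h4
    cases c
    · exact mem_union_left _ h4
    · exact mem_union_right _ h4

theorem thin (h : ℕ) : ∀ n, ∃ r, TB n h r := by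
  classical
  induction h with
  | zero =>
    refine fun n => ⟨2, fun q β => ⟨β, fun A m a G α T f _ _ hG => ref_zero hG fun y =>
      ⟨{f ∅, f {y}}, card_le_two, fun s hs _ => ?_⟩⟩⟩
    rcases subset_singleton_iff.1 (show s ⊆ {y} from fun x hx => mem_singleton.2 (hs hx)) with rfl | rfl <;> simp
  | succ h ih =>
    have key : ∀ n, ∃ r, FB n h r := fun n => by
      induction n with
      | zero => exact ⟨_, FB.zero h⟩
      | succ n ihn =>
        obtain ⟨r, hr⟩ := ih (n + 1)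
        obtain ⟨r', hr'⟩ := ihn
        exact ⟨_, FB.succ hr hr'⟩
    exact fun n => (key n).elim fun r hr => ⟨_, hr.tb⟩

end Pool.Agent.FreeSOA
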