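import Pool.Agent.Lib.MP_3ec3f9_lc.Cut
import Pool.Agent.Lib.MP_3ec3f9_lc.Ambient

/-!
A semi-regular, non-regular cut in which the free set principle for pairs holds.
-/

namespace Pool.Agent.FreeSOA

open Filter

theorem Amb.comp_le (A : Amb) {j j' : ℕ} (h : j ≤ j') (y : ℕ) : A.L j (A.L j' y) = A.L j y := by
  induction h generalizing y with
  | refl => exact A.idem j y
  | step _ ih => rw [← ih, A.comp, ih]

theorem exists_code (k : ℕ) (g : ℕ → Bool) : ∃ i < 2 ^ k, ∀ l < k, i.testBit l = g l := by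
  induction k generalizing g with
  | zero => exact ⟨0, by simp, by simp⟩
  | succ k ih =>
    obtain ⟨i, hi, h⟩ := ih fun l => g (l + 1)
    refine ⟨Nat.bit (g 0) i, ?_, fun l hl => ?_⟩
    · cases g 0 <;> simp [Nat.bit] <;> omega
    · cases l with
      | zero => simp
      | succ l => rw [Nat.testBit_bit_succ, h l (by omega)]

/-- The pairing function on the natural numbers. -/
def npr (x y : ℕ) : ℕ := (x + y) * (x + y) + x

theorem npr_inj {x y x' y' : ℕ} (h : npr x y = npr x' y') : x = x' ∧ y = y' := by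
  unfold npr at h
  have : x + y = x' + y' := by
    rcases lt_trichotomy (x + y) (x' + y') with h1 | h1 | h1
    · nlinarith
    · exact h1
    · nlinarith
  rw [this] at h
  omega

/-- The pairing term. -/
def tpr (s t : Tm) : Tm := .add (.mul (.add s t) (.add s t)) s

theorem rep_pr {Y : Sys} (x y : Y.M) :
    ∀ᶠ k in UU, Sys.rep (Y.str.pr x y) k = npr (Sys.rep x k) (Sys.rep y k) :=
  Sys.rep_val [x, y] (tpr (.var 0) (.var 1))

theorem ev_gt (j : ℕ) : ∀ᶠ k in UU, j < k := Nat.hyperfilter_le_atTop (eventually_gt_atTop j)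

/-- The operations under which the families of sequences are closed. -/
noncomputable def ops (a₀ : ℕ → ℕ) (R : ℕ → Set ℕ)
    (St : ℕ → ℕ → ℕ → Set ℕ → (ℕ → ℕ → ℕ) → Set ℕ → Bool → ℕ × Set ℕ) :
    ℕ × Fm × Fm → ℕ → List ℕ → List (Set ℕ) → ℕ × Set ℕ
  | (0, θ, η), _, v, V => (sInf {x | std.Sat V θ (x :: v)},
      {x | ∃ y, std.Sat V θ (y :: x :: v) ∧ ∀ y' ≤ y, std.Sat V η (y' :: x :: v)})
  | (1, θ, _), _, v, V => (sInf {x | ¬ ∃ y < v.headD 0, std.Sat V θ (y :: (x + 1) :: v.tail)},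
      {w | ∃ x ≤ v.headD 0, w = sInf {y | std.Sat V θ (y :: x :: v.tail)}})
  | (2, _, _), _, _, _ => (0, Set.univ)
  | (3, _, _), k, _, _ => (1, R k)
  | (4, _, _), k, _, _ => (a₀ k, ∅)
  | (5, _, _), _, v, _ => (v.getD 0 0 + v.getD 1 0, ∅)
  | (6, _, _), _, v, _ => (v.getD 0 0 * v.getD 1 0, ∅)
  | (j + 7, _, _), k, v, V => St k j (v.getD 0 0) (V.getD 0 ∅)
      (fun x y => sInf {z | npr (npr x y) z ∈ V.getD 1 ∅}) (V.getD 2 ∅) (!(v.getD 1 0).testBit j)

theorem main : ∃ A : Str, A.IsRCA0 ∧ A.FreeSet2 ∧ ¬ A.BSigma2 := by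
  obtain ⟨A, Large, a₀, h₀, hSt⟩ := exists_system
  choose St hSt using hSt
  let R : ℕ → Set ℕ := fun k => {p | ∃ i u, p = npr i u ∧ ∀ l < k, i.testBit l = (A k).lam l u}
  obtain ⟨N, S, hNc, hSc, hcl⟩ := exists_closed (ops a₀ R St)
  let φ₀ : Fm := .eq .zero .zero
  have m0 : (fun _ => 0) ∈ N := (hcl (2, φ₀, φ₀) [] [] (by simp) (by simp)).1
  have mU : (fun _ => Set.univ) ∈ S := (hcl (2, φ₀, φ₀) [] [] (by simp) (by simp)).2
  have m1 : (fun _ => 1) ∈ N := (hcl (3, φ₀, φ₀) [] [] (by simp) (by simp)).1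
  have mR : R ∈ S := (hcl (3, φ₀, φ₀) [] [] (by simp) (by simp)).2
  have ma : a₀ ∈ N := (hcl (4, φ₀, φ₀) [] [] (by simp) (by simp)).1
  obtain ⟨τ, hτ⟩ := (hSc.prod (hSc.prod hNc)).exists_eq_range
    ⟨(R, R, a₀), mR, mR, ma⟩
  have hτm : ∀ n, (τ n).1 ∈ S ∧ (τ n).2.1 ∈ S ∧ (τ n).2.2 ∈ N := fun n => by
    have : τ n ∈ S ×ˢ S ×ˢ N := hτ ▸ ⟨n, rfl⟩
    exact this
  have hτs : ∀ F ∈ S, ∀ D ∈ S, ∀ i ∈ N, ∀ j₀ : ℕ, ∃ j : ℕ, j₀ ≤ j ∧ τ j.unpair.1 = (F, D, i) := by
    intro F hF D hD i hi j₀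
    have : (F, D, i) ∈ Set.range τ := hτ ▸ ⟨hF, hD, hi⟩
    obtain ⟨n, hn⟩ := this
    exact ⟨Nat.pair n j₀, Nat.right_le_pair _ _, by simpa using hn⟩
  let s : ℕ → ℕ → ℕ × Set ℕ := fun j => Nat.rec (fun k => (a₀ k, Set.univ))
    (fun j p k => St k j (p k).1 (p k).2
      (fun x y => sInf {z | npr (npr x y) z ∈ (τ j.unpair.1).1 k}) ((τ j.unpair.1).2.1 k)
      (!((τ j.unpair.1).2.2 k).testBit j)) j
  have hs : ∀ j k, s (j + 1) k = St k j (s j k).1 (s j k).2
      (fun x y => sInf {z | npr (npr x y) z ∈ (τ j.unpair.1).1 k}) ((τ j.unpair.1).2.1 k)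
      (!((τ j.unpair.1).2.2 k).testBit j) := fun _ _ => rfl
  have hs0 : ∀ k, s 0 k = (a₀ k, Set.univ) := fun _ => rfl
  clear_value s
  have hmem : ∀ j, (fun k => (s j k).1) ∈ N ∧ (fun k => (s j k).2) ∈ S := by
    intro j
    induction j with
    | zero => simpa only [hs0] using ⟨ma, mU⟩
    | succ j ih =>
      simp only [hs]
      exact hcl (j + 7, φ₀, φ₀) [fun k => (s j k).1, (τ j.unpair.1).2.2]
        [fun k => (s j k).2, (τ j.unpair.1).1, (τ j.unpair.1).2.1]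
        (by simpa using ⟨ih.1, (hτm _).2.2⟩) (by simpa using ⟨ih.2, (hτm _).1, (hτm _).2.1⟩)
  have hL : ∀ j k, j ≤ k → Large k j (s j k).1 (s j k).2 := by
    intro j k
    induction j with
    | zero => exact fun _ => hs0 k ▸ (h₀ k).2
    | succ j ih =>
      intro hj
      rw [hs]
      exact (hSt _ _ _ _ _ _ _ hj (ih (by omega))).2.1
  have hP := fun j k (hj : j < k) => hs j k ▸ hSt k j (s j k).1 (s j k).2
    (fun x y => sInf {z | npr (npr x y) z ∈ (τ j.unpair.1).1 k}) ((τ j.unpair.1).2.1 k)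
    (!((τ j.unpair.1).2.2 k).testBit j) hj (hL j k hj.le)
  have hmono : ∀ j j' k, j ≤ j' → j' ≤ k → (s j k).1 ≤ (s j' k).1 ∧ (s j' k).2 ⊆ (s j k).2 := by
    intro j j' k h hk
    induction h with
    | refl => exact ⟨le_rfl, subset_rfl⟩
    | step _ ih =>
      have h1 := hP _ k hk
      have h2 := ih (Nat.le_of_succ_le hk)
      exact ⟨h2.1.trans ((A k).le_of_eq h1.2.2.1), h1.1.trans h2.2⟩
  have hchain : ∀ j j' k, j ≤ j' → j' < k → (A k).L j (s (j' + 1) k).1 = (s j k).1 := by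
    intro j j' k h hk
    induction h with
    | refl => exact (hP _ k hk).2.2.1
    | step h ih =>
      rw [← (A k).comp_le (Nat.le_succ_of_le h), (hP _ k hk).2.2.1, ih (Nat.lt_of_succ_lt hk)]
  have hsand : ∀ j j', ∀ᶠ k in UU, ∀ y, (s j k).1 ≤ y → y ≤ (s j' k).1 →
      (A k).L j y = (s j k).1 := by
    intro j j'
    filter_upwards [ev_gt (max j j')] with k hk y h1 h2
    have h3 := hchain j (max j j') k (le_max_left _ _) hk
    have h4 := (hmono j' (max j j' + 1) k (by omega) hk).1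
    have h5 := (A k).mono j (h2.trans h4)
    have h6 := (A k).mono j h1
    rw [← h3, (A k).idem] at h6
    omega
  let Y : Sys :=
    { N := N
      S := S
      a := fun j k => (s j k).1
      a_mem := fun j => (hmem j).1
      a_sq := fun j => (ev_gt j).mono fun k hk => (hP j k hk).2.2.2.2.1
      zero_mem := m0
      one_mem := m1
      add_mem := fun x hx y hy => (hcl (5, φ₀, φ₀) [x, y] [] (by simpa using ⟨hx, hy⟩) (by simp)).1
      mul_mem := fun x hx y hy => (hcl (6, φ₀, φ₀) [x, y] [] (by simpa using ⟨hx, hy⟩) (by simp)).1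
      sk_mem := fun θ v V hv hV => (hcl (0, θ, θ) v V hv hV).1
      ca_mem := fun θ η v V hv hV => (hcl (0, θ, η) v V hv hV).2
      ind_mem := fun θ v V hv hV p hp =>
        (hcl (1, θ, θ) (p :: v) V (by simpa using ⟨hp, hv⟩) hV).1
      semireg := by
        rintro θ v V hv hV e he ⟨j₀, hj₀⟩
        have hD := (hcl (1, θ, θ) (e :: v) V (by simpa using ⟨he, hv⟩) hV).2
        obtain ⟨j, hj, hτj⟩ := hτs _ hD _ hD _ he (j₀ + 1)
        refine ⟨j + 1, fun j' => ?_⟩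
        filter_upwards [hj₀, ev_gt j, hsand (j + 1) j'] with k h1 h2 h3 x hx hle
        have h4 := (hP j k h2).2.2.2.2.2.2.1
        rw [hτj] at h4
        by_contra hn
        refine h4 ⟨(Finset.range (e k + 1)).image
          (fun x => sInf {y | std.Sat (V.map (· k)) θ (y :: x :: v.map (· k))}), ?_, ?_⟩ _
          ⟨x, hx, rfl⟩ (h3 _ (not_lt.1 hn) hle)
        · refine Finset.card_image_le.trans ?_
          have h5 := (hP j₀ k (by omega)).2.2.2.2.1
          have h6 := (hmono (j₀ + 1) j k hj h2.le).1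
          rw [Finset.card_range]
          nlinarith
        · rintro _ ⟨x, hx, rfl⟩
          exact Finset.mem_coe.2 (Finset.mem_image.2
            ⟨x, Finset.mem_range.2 (Nat.lt_succ_of_le hx), rfl⟩) }
  refine ⟨Y.str, Y.isRCA0, ?_, fun hB => ?_⟩
  · rintro _ ⟨F, hF, rfl⟩ hfun
    obtain ⟨j, -, hτj⟩ := hτs F hF F hF a₀ ma 0
    refine ⟨_, ⟨_, (hmem (j + 1)).2, rfl⟩, fun b => ?_, fun x hx y hy hxy z hz => ?_⟩
    · obtain ⟨j₀, hj₀⟩ := Sys.rep_bd b
      obtain ⟨y, hy⟩ := Sys.wit (Y := Y) (.and (.mem (.var 0) 0) (.lt (.var 1) (.var 0))) [b]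
        [fun k => (s (j + 1) k).2] (by simpa using (hmem (j + 1)).2)
        (Y.bd_a (max j j₀ + 1 + 1)) (by
          filter_upwards [hj₀, ev_gt (max j j₀ + 1)] with k h1 h2
          obtain ⟨y, hy, h3, h4⟩ := (hP _ k h2).2.2.2.2.2.1
          refine ⟨y, h4, (hmono (j + 1) _ k (by omega) h2).2 hy, ?_⟩
          have h5 := (hP (max j j₀) k (by omega)).2.2.2.2.1
          have h6 := (hmono j₀ (max j j₀) k (by omega) (by omega)).1
          change Sys.rep b k < y
          change Sys.rep b k ≤ (s j₀ k).1 at h1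
          nlinarith)
      exact ⟨y, hy.mono fun k hk => hk.2.1, hy.mono fun k hk => hk.2.2⟩
    · by_contra hn
      push Not at hn
      have hz' : ∀ᶠ k in UU, npr (npr (Sys.rep x k) (Sys.rep y k)) (Sys.rep z k) ∈ F k := by
        filter_upwards [hz, rep_pr (Y.str.pr x y) z, rep_pr x y] with k h1 h2 h3
        rwa [h2, h3] at h1
      have hmin : ∀ᶠ k in UU, ¬ ∃ w < Sys.rep z k,
          npr (npr (Sys.rep x k) (Sys.rep y k)) w ∈ F k := by
        rw [Ultrafilter.eventually_not]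
        intro hw
        obtain ⟨w, hw⟩ := Sys.wit (Y := Y) (.mem (tpr (tpr (.var 1) (.var 2)) (.var 0)) 0) [x, y]
          [F] (by simpa using hF) (Sys.rep_bd z) hw
        have hwF : Y.str.pr (Y.str.pr x y) w ∈ Sys.star F := by
          filter_upwards [hw, rep_pr (Y.str.pr x y) w, rep_pr x y] with k h1 h2 h3
          rw [h2, h3]
          exact h1.2
        obtain rfl := (hfun x y hxy).unique hwF hz
        obtain ⟨k, hk⟩ := hw.exists
        exact lt_irrefl _ hk.1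
      have key : ∀ᶠ k in UU, Sys.rep z k = Sys.rep x k ∨ Sys.rep z k = Sys.rep y k := by
        filter_upwards [hx, hy, hn.1, hxy, hz', hmin, ev_gt j] with k h1 h2 h3 h4 h5 h6 h7
        have h8 := (hP j k h7).2.2.2.2.2.2.2 _ h1 _ h2 _ h3 h4
        rw [hτj] at h8
        refine h8 ?_
        have h9 := Sys.sInf_spec (fun w => npr (npr (Sys.rep x k) (Sys.rep y k)) w ∈ F k) h5
        exact le_antisymm h9.1 (not_lt.1 fun hlt => h6 ⟨_, hlt, h9.2⟩)
      rcases Ultrafilter.eventually_or.1 key with h | h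
      · exact hn.2.1 ((Sys.eq_iff _ _).2 h)
      · exact hn.2.2 ((Sys.eq_iff _ _).2 h)
  · obtain ⟨b, hb⟩ := hB (.not (.and (.lt (.var 2) (.var 0)) (.mem (tpr (.var 3) (.var 0)) 0))) []
      [Sys.star R] (by simpa using ⟨R, mR, rfl⟩) (Sys.el _ (Y.a_mem 0) (Y.bd_a 0)) (by
        intro i _
        obtain ⟨j, -, hτj⟩ := hτs R mR R mR _ (Sys.rep_mem i) 0
        refine ⟨Sys.el _ (Y.a_mem (j + 1)) (Y.bd_a (j + 1)), i, fun w ⟨h1, h2⟩ => ?_⟩
        obtain ⟨j', hj'⟩ := Sys.rep_bd w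
        obtain ⟨k, h3, h4, h5, h6, h7, h8, h9⟩ := ((ev_gt j).and (hj'.and ((hsand (j + 1) j').and
          ((rep_pr i w).and ((Sys.rep_el _ (Y.a_mem (j + 1)) (Y.bd_a (j + 1))).and
          (Eventually.and h1 h2)))))).exists
        change Sys.rep (Y.str.pr i w) k ∈ R k at h9
        change Sys.rep (Sys.el _ (Y.a_mem (j + 1)) (Y.bd_a (j + 1))) k < Sys.rep w k at h8
        rw [h7] at h8
        rw [h6] at h9
        obtain ⟨i', u, hp, hbit⟩ := h9
        obtain ⟨rfl, rfl⟩ := npr_inj hp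
        have h10 := (hP j k h3).2.2.2.1
        rw [hτj, ← h5 _ h8.le h4, (A k).lam_comp, ← hbit j h3] at h10
        simp at h10)
    obtain ⟨i, hi⟩ := Sys.wit (Y := Y) (.mem (tpr (.var 0) (.var 1)) 0) [b] [R]
      (by simpa using mR) (Y.bd_a 0) (Eventually.of_forall fun k => by
        obtain ⟨i, hi, hc⟩ := exists_code k (fun l => (A k).lam l (Sys.rep b k))
        refine ⟨i, ?_, i, _, rfl, hc⟩
        change i < (s 0 k).1
        rw [hs0]
        exact hi.trans_le (h₀ k).1)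
    obtain ⟨j, hj, u, hu⟩ := hb i (by
      filter_upwards [hi, Sys.rep_el _ (Y.a_mem 0) (Y.bd_a 0)] with k h1 h2
      rw [h2]
      exact h1.1)
    refine hu b ⟨hj, ?_⟩
    change ∀ᶠ k in UU, Sys.rep (Y.str.pr i b) k ∈ R k
    filter_upwards [hi, rep_pr i b] with k h1 h2
    rw [h2]
    exact h1.2

end Pool.Agent.FreeSOA
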