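import Mathlib

/-!
Finite combinatorics for the cut model: two-coloured trees of nested intervals.
-/

namespace Pool.Agent.FreeSOA

open Finset

/-- Prehomogeneous subsets. -/
theorem prehom (K n : ℕ) : ∃ N, ∀ (α : Type) (T : Finset α) (c : ℕ → ℕ → α) (S : Finset ℕ),
    T.card ≤ K → (∀ x y, c x y ∈ T) → N ≤ S.card →
    ∃ S' ⊆ S, n ≤ S'.card ∧ ∃ g : ℕ → α, (∀ x, g x ∈ T) ∧
      ∀ x ∈ S', ∀ y ∈ S', x < y → c x y = g x := by
  classical
  induction n with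
  | zero =>
    exact ⟨0, fun α T c S _ hc _ => ⟨∅, empty_subset _, le_rfl, fun x => c x x, fun x => hc x x,
      by simp⟩⟩
  | succ n ih =>
    obtain ⟨N, hN⟩ := ih
    refine ⟨K * N + 1, fun α T c S hT hc hS => ?_⟩
    have hne : S.Nonempty := card_pos.1 (by omega)
    set x₀ := S.min' hne with hx₀
    have hx₀S : x₀ ∈ S := min'_mem _ _
    obtain ⟨t, ht, hcard⟩ := exists_le_card_fiber_of_mul_le_card_of_maps_to
      (s := S.erase x₀) (t := T) (f := fun y => c x₀ y) (n := N) (fun y _ => hc _ _)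
      ⟨_, hc 0 0⟩ (by
        rw [card_erase_of_mem hx₀S]
        have := Nat.mul_le_mul_right N hT
        omega)
    obtain ⟨S', hS', hn, g, hg, hh⟩ := hN α T c _ hT hc hcard
    have hnot : x₀ ∉ S' := fun h => by simpa using hS' h
    refine ⟨insert x₀ S', ?_, by rw [card_insert_of_notMem hnot]; omega,
      Function.update g x₀ t, fun x => ?_, ?_⟩
    · intro y hy
      rcases mem_insert.1 hy with rfl | hy
      · exact hx₀S
      · exact mem_of_mem_erase (mem_filter.1 (hS' hy)).1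
    · by_cases h : x = x₀
      · subst h; simpa using ht
      · simpa [Function.update_of_ne h] using hg x
    · intro x hx y hy hxy
      have hyS' : y ∈ S' := by
        rcases mem_insert.1 hy with rfl | hy
        · rcases mem_insert.1 hx with rfl | hx
          · omega
          · have := min'_le S x (mem_of_mem_erase (mem_filter.1 (hS' hx)).1)
            omega
        · exact hy
      rcases mem_insert.1 hx with rfl | hx
      · simpa using (mem_filter.1 (hS' hyS')).2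
      · have hne : x ≠ x₀ := fun h => hnot (h ▸ hx)
        rw [Function.update_of_ne hne]
        exact hh x hx y hyS' hxy

/-- Finite Ramsey theorem for pairs (with the diagonal). -/
theorem ramsey (K n : ℕ) : ∃ N, ∀ (α : Type) (T : Finset α) (c : ℕ → ℕ → α),
    T.card ≤ K → (∀ x y, c x y ∈ T) →
    ∃ H ⊆ range N, n ≤ H.card ∧ ∃ t ∈ T, ∃ t' ∈ T,
      (∀ x ∈ H, ∀ y ∈ H, x < y → c x y = t) ∧ ∀ x ∈ H, c x x = t' := by
  classical
  obtain ⟨N, hN⟩ := prehom K (K * K * n)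
  refine ⟨N, fun α T c hT hc => ?_⟩
  obtain ⟨S', hS', hn, g, hg, hh⟩ := hN α T c (range N) hT hc (by simp)
  obtain ⟨t, ht, hcard⟩ := exists_le_card_fiber_of_mul_le_card_of_maps_to
    (s := S') (t := T ×ˢ T) (f := fun x => (g x, c x x)) (n := n)
    (fun y _ => mem_product.2 ⟨hg _, hc _ _⟩) ⟨(c 0 0, c 0 0), mem_product.2 ⟨hc _ _, hc _ _⟩⟩
    (by
      rw [card_product]
      exact (Nat.mul_le_mul_right n (Nat.mul_le_mul hT hT)).trans hn)
  refine ⟨_, (filter_subset _ _).trans hS', hcard, t.1, (mem_product.1 ht).1, t.2,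
    (mem_product.1 ht).2, fun x hx y hy hxy => ?_, fun x hx => ?_⟩
  · rw [hh x (mem_filter.1 hx).1 y (mem_filter.1 hy).1 hxy, ← (mem_filter.1 hx).2]
  · rw [← (mem_filter.1 hx).2]

theorem exists_mono (f : ℕ → ℕ) : ∃ g : ℕ → ℕ, ∀ a b, a ≤ b → f a ≤ g b :=
  ⟨fun b => (range (b + 1)).sup f, fun _ _ h => le_sup (f := f) (mem_range.2 (Nat.lt_succ_of_le h))⟩

theorem exists_enum (S : Finset ℕ) (N : ℕ) (h : N ≤ S.card) :
    ∃ u : ℕ → ℕ, (∀ i < N, u i ∈ S) ∧ Set.InjOn u (range N : Finset ℕ) := by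
  refine ⟨fun i => if hi : i < N then S.orderEmbOfCardLe h ⟨i, hi⟩ else 0, fun i hi => ?_, ?_⟩
  · simp only [dif_pos hi]
    exact orderEmbOfCardLe_mem _ _ _
  · intro i hi j hj hij
    have hi' : i < N := by simpa using hi
    have hj' : j < N := by simpa using hj
    simp only [dif_pos hi', dif_pos hj'] at hij
    simpa using (S.orderEmbOfCardLe h).injective hij

/-- An ambient tree: `L i y` is the least point of the level-`i` interval that contains `y`, and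
`lam i y` the colour of the level-`i+1` interval that contains `y`. -/
structure Amb where
  L : ℕ → ℕ → ℕ
  lam : ℕ → ℕ → Bool
  le : ∀ i y, L i y ≤ y
  mono : ∀ i, Monotone (L i)
  idem : ∀ i y, L i (L i y) = L i y
  comp : ∀ i y, L i (L (i + 1) y) = L i y
  lam_comp : ∀ i y, lam i (L (i + 1) y) = lam i y

namespace Amb

variable (A : Amb)

theorem lt_of_lt {i x y : ℕ} (h : A.L i x < A.L i y) : x < A.L i y := by
  by_contra hc
  have := A.mono i (not_lt.1 hc)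
  rw [A.idem] at this
  omega

theorem le_of_eq {m b a : ℕ} (h : A.L m b = a) : a ≤ b := h ▸ A.le m b

/-- `G` contains a two-coloured tree of height `h` with branching above `β` below the level-`m`
node `a`. -/
def Good (β : ℕ → ℕ) : ℕ → ℕ → ℕ → Set ℕ → Prop
  | 0, m, a, G => ∃ y ∈ G, A.L m y = a
  | h + 1, m, a, G => ∃ B : Finset ℕ,
      (∀ c, β a < (B.filter (fun b => A.lam m b = c)).card) ∧
      ∀ b ∈ B, A.L m b = a ∧ Good β h (m + 1) b G

variable {A}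

theorem Good.mono {β β' : ℕ → ℕ} (hβ : ∀ a, β a ≤ β' a) :
    ∀ {h m a : ℕ} {G G' : Set ℕ}, (∀ y ∈ G, A.L m y = a → y ∈ G') →
      A.Good β' h m a G → A.Good β h m a G'
  | 0, _, _, _, _, hG, ⟨y, hy, hya⟩ => ⟨y, hG y hy hya, hya⟩
  | _ + 1, m, a, _, _, hG, ⟨B, hB, hk⟩ =>
    ⟨B, fun c => (hβ a).trans_lt (hB c), fun b hb => ⟨(hk b hb).1,
      Good.mono hβ (fun y hy hyb => hG y hy (by rw [← A.comp, hyb, (hk b hb).1])) (hk b hb).2⟩⟩

theorem Good.exists {β : ℕ → ℕ} :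
    ∀ {h m a : ℕ} {G : Set ℕ}, A.Good β h m a G → ∃ y ∈ G, A.L m y = a
  | 0, _, _, _, hG => hG
  | _ + 1, m, a, _, ⟨B, hB, hk⟩ => by
    obtain ⟨b, hb⟩ := card_pos.1 ((Nat.zero_le _).trans_lt (hB true))
    have hb' := (mem_filter.1 hb).1
    obtain ⟨y, hy, hyb⟩ := Good.exists (hk b hb').2
    exact ⟨y, hy, by rw [← A.comp, hyb, (hk b hb').1]⟩

theorem Good.trunc {β : ℕ → ℕ} :
    ∀ {h m a : ℕ} {G : Set ℕ}, A.Good β (h + 1) m a G → A.Good β h m a G
  | 0, _, _, _, hG => hG.exists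
  | _ + 1, _, _, _, ⟨B, hB, hk⟩ => ⟨B, hB, fun b hb => ⟨(hk b hb).1, Good.trunc (hk b hb).2⟩⟩

theorem Good.single {β : ℕ → ℕ} {G : Set ℕ} (n : ℕ) :
    ∀ {h m a : ℕ}, m + h = n → A.Good β h m a G →
      A.Good β h m a {y | y ∈ G ∧ ∀ y' ∈ G, A.L n y' = A.L n y → y ≤ y'}
  | 0, m, a, hn, hG => by
    classical
    obtain rfl : m = n := by omega
    have hex : ∃ y, y ∈ G ∧ A.L m y = a := hG
    refine ⟨Nat.find hex, ⟨(Nat.find_spec hex).1, fun y' hy' he => Nat.find_min' hex ⟨hy', ?_⟩⟩,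
      (Nat.find_spec hex).2⟩
    rw [he, (Nat.find_spec hex).2]
  | _ + 1, _, _, hn, ⟨B, hB, hk⟩ =>
    ⟨B, hB, fun b hb => ⟨(hk b hb).1, Good.single n (by omega) (hk b hb).2⟩⟩

variable (A)

/-- `G` can be refined below the node `a` to a good set with property `P`. -/
def Ref (β : ℕ → ℕ) (h m a : ℕ) (G : Set ℕ) (P : Set ℕ → Prop) : Prop :=
  ∃ G' ⊆ G, (∀ y ∈ G', A.L m y = a) ∧ A.Good β h m a G' ∧ P G'

variable {A}

theorem fam {β : ℕ → ℕ} {h m : ℕ} {G : Set ℕ} {B : Finset ℕ} {P : ℕ → Set ℕ → Prop}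
    (H : ∀ b ∈ B, A.Ref β h m b G (P b)) :
    ∃ G' ⊆ G, (∀ y ∈ G', A.L m y ∈ B) ∧ (∀ b ∈ B, A.Good β h m b G') ∧
      ∀ b ∈ B, P b {y | y ∈ G' ∧ A.L m y = b} := by
  choose! F hF hn hg hP using H
  refine ⟨{y | A.L m y ∈ B ∧ y ∈ F (A.L m y)}, fun y hy => hF _ hy.1 hy.2, fun y hy => hy.1,
    fun b hb => (hg b hb).mono (fun _ => le_rfl) ?_, fun b hb => ?_⟩
  · rintro y hy rfl
    exact ⟨hb, hy⟩
  · convert hP b hb using 1
    ext y
    constructor
    · rintro ⟨hy, rfl⟩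
      exact hy.2
    · intro hy
      have := hn b hb y hy
      subst this
      exact ⟨⟨hb, hy⟩, rfl⟩

theorem ref_succ {β : ℕ → ℕ} {h m a : ℕ} {G G' : Set ℕ} {P : Set ℕ → Prop} (B : Finset ℕ)
    (hG : G' ⊆ G) (hB : ∀ c, β a < (B.filter (fun b => A.lam m b = c)).card)
    (ha : ∀ b ∈ B, A.L m b = a) (hk : ∀ b ∈ B, A.Good β h (m + 1) b G')
    (hP : P {y | y ∈ G' ∧ A.L (m + 1) y ∈ B}) : A.Ref β (h + 1) m a G P := by
  refine ⟨_, fun y hy => hG hy.1, fun y hy => ?_, ⟨B, hB, fun b hb => ⟨ha b hb,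
    (hk b hb).mono (fun _ => le_rfl) fun y hy hyb => ?_⟩⟩, hP⟩
  swap
  · exact ⟨hy, hyb ▸ hb⟩
  rw [← A.comp, ha _ hy.2]

theorem col_union {m n : ℕ} (B : Bool → Finset ℕ) (hc : ∀ c, n < (B c).card)
    (hl : ∀ c, ∀ b ∈ B c, A.lam m b = c) (c : Bool) :
    n < ((B false ∪ B true).filter (fun b => A.lam m b = c)).card := by
  refine (hc c).trans_le (card_le_card fun b hb => mem_filter.2 ⟨?_, hl c b hb⟩)
  cases c <;> simp [hb]

theorem cut {m n : ℕ} {B : Finset ℕ}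
    (hB : ∀ c, n < (B.filter (fun b => A.lam m b = c)).card) :
    ∃ B' ⊆ B, B'.card ≤ 2 * (n + 1) ∧ ∀ c, n < (B'.filter (fun b => A.lam m b = c)).card := by
  choose B' hs hc using fun c => exists_subset_card_eq (Nat.succ_le_of_lt (hB c))
  refine ⟨B' false ∪ B' true, union_subset ((hs _).trans (filter_subset _ _))
    ((hs _).trans (filter_subset _ _)), (card_union_le _ _).trans (by rw [hc, hc]; omega),
    col_union B' (fun c => by rw [hc]; omega) fun c b hb => (mem_filter.1 (hs c hb)).2⟩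

theorem ref_zero {β : ℕ → ℕ} {β' : ℕ → ℕ} {m a : ℕ} {G : Set ℕ} {P : Set ℕ → Prop}
    (hG : A.Good β' 0 m a G) (hP : ∀ y, P {y}) : A.Ref β 0 m a G P := by
  obtain ⟨y, hy, hya⟩ := hG
  exact ⟨{y}, by simpa using hy, by simpa using hya, ⟨y, rfl, hya⟩, hP y⟩

end Amb

open Amb

/-- Unary thinning: a colouring of points takes at most `2 ^ h` values on a subtree. -/
theorem claimA (h : ℕ) : ∀ q β : ℕ → ℕ, ∃ β' : ℕ → ℕ, ∀ (A : Amb) (m a : ℕ) (G : Set ℕ)
    (α : Type) (T : Finset α) (g : ℕ → α), T.card ≤ q a → (∀ y, g y ∈ T) →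
    A.Good β' h m a G →
    A.Ref β h m a G (fun G' => ∃ D : Finset α, D.card ≤ 2 ^ h ∧ ∀ y ∈ G', g y ∈ D) := by
  classical
  induction h with
  | zero =>
    exact fun q β => ⟨β, fun A m a G α T g _ _ hG => ref_zero hG fun y => ⟨{g y}, by simp, by simp⟩⟩
  | succ h ih =>
    intro q β
    obtain ⟨q', hq'⟩ := exists_mono q
    obtain ⟨β₁, h₁⟩ := ih q' β
    refine ⟨fun a => β₁ a + 2 ^ q a * (β a + 1), ?_⟩
    rintro A m a G α T g hT hg ⟨B, hB, hk⟩
    obtain ⟨G₁, hG₁, -, hk₁, hP₁⟩ := fam fun b hb => h₁ A (m + 1) b G α T g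
      (hT.trans (hq' _ _ (A.le_of_eq (hk b hb).1))) hg
      ((hk b hb).2.mono (fun _ => Nat.le_add_right _ _) fun _ h _ => h)
    choose! D hD hgD using hP₁
    have key : ∀ c, ∃ E : Finset α, E.card ≤ 2 ^ h ∧ ∃ B' ⊆ B.filter (fun b => A.lam m b = c),
        β a < B'.card ∧ ∀ b ∈ B', D b ∩ T = E := by
      intro c
      obtain ⟨E, -, hE⟩ := exists_le_card_fiber_of_mul_le_card_of_maps_to
        (s := B.filter (fun b => A.lam m b = c)) (t := T.powerset) (f := fun b => D b ∩ T)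
        (n := β a + 1) (fun b _ => mem_powerset.2 inter_subset_right) ⟨∅, by simp⟩ (by
          rw [card_powerset]
          have := hB c
          have := Nat.mul_le_mul_right (β a + 1) (Nat.pow_le_pow_right (by norm_num : 2 > 0) hT)
          beta_reduce at *
          omega)
      obtain ⟨b, hb⟩ := card_pos.1 ((Nat.succ_pos _).trans_le hE)
      refine ⟨E, ?_, _, filter_subset _ _, hE, fun b hb => (mem_filter.1 hb).2⟩
      rw [← (mem_filter.1 hb).2]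
      exact (card_le_card inter_subset_left).trans
        (hD b (mem_filter.1 (mem_filter.1 hb).1).1)
    choose E hE B' hB' hc hDE using key
    have hsub : ∀ b ∈ B' false ∪ B' true, b ∈ B := fun b hb => by
      rcases mem_union.1 hb with hb | hb <;> exact (mem_filter.1 (hB' _ hb)).1
    refine ref_succ (B' false ∪ B' true) hG₁
      (col_union B' hc fun c b hb => (mem_filter.1 (hB' c hb)).2)
      (fun b hb => (hk b (hsub b hb)).1) (fun b hb => hk₁ b (hsub b hb))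
      ⟨E false ∪ E true, (card_union_le _ _).trans (by
        have := hE false; have := hE true; omega), fun y hy => ?_⟩
    have := mem_inter.2 ⟨hgD _ (hsub _ hy.2) y ⟨hy.1, rfl⟩, hg y⟩
    rcases mem_union.1 hy.2 with hb | hb
    · exact mem_union_left _ (hDE _ _ hb ▸ this)
    · exact mem_union_right _ (hDE _ _ hb ▸ this)

/-- Unary thinning with parameters. -/
theorem claimA' (h : ℕ) (q β : ℕ → ℕ) : ∃ β' : ℕ → ℕ, ∀ (A : Amb) (m a : ℕ) (G : Set ℕ)
    (α : Type) (S : Finset ℕ) (T : Finset α) (g : ℕ → ℕ → α), S.card ≤ q a → T.card ≤ q a →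
    (∀ s y, g s y ∈ T) → A.Good β' h m a G →
    A.Ref β h m a G (fun G' => ∃ D : ℕ → Finset α, (∀ s, (D s).card ≤ 2 ^ h) ∧
      ∀ s ∈ S, ∀ y ∈ G', g s y ∈ D s) := by
  classical
  obtain ⟨β', h'⟩ := claimA h (fun a => (q a + 1) ^ q a) β
  refine ⟨β', fun A m a G α S T g hS hT hg hG => ?_⟩
  obtain ⟨G', h1, h2, h3, D, hD, hgD⟩ := h' A m a G (S → α) (Fintype.piFinset fun _ => T)
    (fun y s => g s y) (by
      rw [Fintype.card_piFinset, prod_const, card_univ, Fintype.card_coe]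
      exact (Nat.pow_le_pow_left (by omega) _).trans
        (Nat.pow_le_pow_right (Nat.succ_pos _) hS)) (fun y => Fintype.mem_piFinset.2 fun s => hg _ _) hG
  refine ⟨G', h1, h2, h3, fun s => if hs : s ∈ S then D.image (fun d => d ⟨s, hs⟩) else ∅,
    fun s => ?_, fun s hs y hy => ?_⟩
  · by_cases hs : s ∈ S
    · simp only [dif_pos hs]
      exact card_image_le.trans hD
    · simp [hs]
  · simp only [dif_pos hs]
    exact mem_image.2 ⟨_, hgD y hy, rfl⟩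

/-- Avoiding few points. -/
theorem claimAV (h : ℕ) (q β : ℕ → ℕ) : ∃ β' : ℕ → ℕ, ∀ (A : Amb) (m a : ℕ) (G : Set ℕ)
    (Z : Finset ℕ), Z.card ≤ q a → A.Good β' (h + 1) m a G →
    A.Ref β (h + 1) m a G (fun G' => ∀ y ∈ G', y ∉ Z) := by
  refine ⟨fun a => β a + q a, ?_⟩
  rintro A m a G Z hZ ⟨B, hB, hk⟩
  refine ref_succ (B \ Z.image (A.L (m + 1))) subset_rfl (fun c => ?_)
    (fun b hb => (hk b (mem_sdiff.1 hb).1).1)
    (fun b hb => (hk b (mem_sdiff.1 hb).1).2.mono (fun _ => Nat.le_add_right _ _) fun _ h _ => h)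
    fun y hy hyZ => (mem_sdiff.1 hy.2).2 (mem_image_of_mem _ hyZ)
  have h1 := hB c
  have h2 := le_card_sdiff (Z.image (A.L (m + 1))) (B.filter (fun b => A.lam m b = c))
  have h3 : (Z.image (A.L (m + 1))).card ≤ q a := card_image_le.trans hZ
  have h4 : B.filter (fun b => A.lam m b = c) \ Z.image (A.L (m + 1)) =
      (B \ Z.image (A.L (m + 1))).filter (fun b => A.lam m b = c) := by
    ext b; simp only [mem_sdiff, mem_filter]; tauto
  rw [← h4]
  beta_reduce at h1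
  omega

/-- Thinning for pairs: a colouring of pairs takes boundedly many values on a subtree. -/
theorem claimB (h : ℕ) : ∃ r : ℕ, ∀ q β : ℕ → ℕ, ∃ β' : ℕ → ℕ, ∀ (A : Amb) (m a : ℕ) (G : Set ℕ)
    (α : Type) (T : Finset α) (f : ℕ → ℕ → α), T.card ≤ q a → (∀ x y, f x y ∈ T) →
    A.Good β' h m a G →
    A.Ref β h m a G (fun G' => ∃ D : Finset α, D.card ≤ r ∧
      ∀ x ∈ G', ∀ y ∈ G', x < y → f x y ∈ D) := by
  classical
  induction h with
  | zero =>
    refine ⟨0, fun q β => ⟨β, fun A m a G α T g _ _ hG => ref_zero hG fun y => ⟨∅, by simp, ?_⟩⟩⟩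
    rintro x rfl z rfl h
    omega
  | succ h ih =>
    obtain ⟨r, ih⟩ := ih
    refine ⟨16 * (r + 2 ^ h * 2 ^ h), fun q β => ?_⟩
    choose N hN using fun a => ramsey (2 ^ q a) (β a + 1)
    obtain ⟨q', hq'⟩ := exists_mono q
    obtain ⟨q₂, hq₂⟩ := exists_mono (fun a => 2 * (N a + 1) + 2 ^ q a)
    obtain ⟨β₂, h₂⟩ := claimA' h q₂ β
    obtain ⟨β₁, h₁⟩ := claimA' h (fun b => b + q' b) β₂
    obtain ⟨β₀, h₀⟩ := ih q' β₁
    refine ⟨fun a => β₀ a + N a, ?_⟩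
    rintro A m a G α T f hT hf ⟨B₀, hB₀, hk₀⟩
    obtain ⟨B, hBB, hBc, hB⟩ := cut (n := N a) fun c => (Nat.le_add_left _ _).trans_lt (hB₀ c)
    have ha : ∀ b ∈ B, A.L m b = a := fun b hb => (hk₀ b (hBB hb)).1
    have hab : ∀ b ∈ B, a ≤ b := fun b hb => A.le_of_eq (ha b hb)
    obtain ⟨G₀, hG₀, -, hk₁, hP₀⟩ := fam fun b hb => h₀ A (m + 1) b G α T f
      (hT.trans (hq' _ _ (hab b hb))) hf
      ((hk₀ b (hBB hb)).2.mono (fun _ => Nat.le_add_right _ _) fun _ h _ => h)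
    choose! D₀ hD₀ hf₀ using hP₀
    obtain ⟨G₁, hG₁, -, hk₂, hP₁⟩ := fam fun b hb => h₁ A (m + 1) b G₀ α (range b) T f
      (by simp) ((hT.trans (hq' _ _ (hab b hb))).trans (Nat.le_add_left _ _)) hf (hk₁ b hb)
    choose! D₁ hD₁ hf₁ using hP₁
    obtain ⟨G₂, hG₂, -, hk₃, hP₂⟩ := fam fun b hb => h₂ A (m + 1) b G₁ (Finset α) B T.powerset
      (fun b' x => D₁ b' x ∩ T)
      (hBc.trans ((Nat.le_add_right _ _).trans (hq₂ _ _ (hab b hb))))
      (by
        have := hq₂ _ _ (hab b hb)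
        have := Nat.pow_le_pow_right (by norm_num : 2 > 0) hT
        rw [card_powerset]
        beta_reduce at *
        omega)
      (fun _ _ => mem_powerset.2 inter_subset_right) (hk₂ b hb)
    choose! D₂ hD₂ hf₂ using hP₂
    have hE : ∀ b b', ∃ E : Finset α, E.card ≤ r + 2 ^ h * 2 ^ h ∧ (b ∈ B → b' ∈ B →
        ∀ x ∈ G₂, ∀ y ∈ G₂, A.L (m + 1) x = b → A.L (m + 1) y = b' → x < y → f x y ∈ E) := by
      intro b b'
      by_cases hb : b ∈ B
      swap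
      · exact ⟨∅, by simp, fun h => absurd h hb⟩
      refine ⟨D₀ b ∪ ((D₂ b b').filter (fun d => d.card ≤ 2 ^ h)).biUnion id,
        (card_union_le _ _).trans (Nat.add_le_add (hD₀ b hb) ?_), ?_⟩
      · refine (card_biUnion_le_card_mul _ _ (2 ^ h) fun d hd => (mem_filter.1 hd).2).trans ?_
        exact Nat.mul_le_mul_right _ ((card_filter_le _ _).trans (hD₂ b hb b'))
      · rintro - hb' x hx y hy hxb hyb hxy
        by_cases hbb : b = b'
        · exact mem_union_left _ (hf₀ b hb x ⟨hG₁ (hG₂ hx), hxb⟩ y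
            ⟨hG₁ (hG₂ hy), hyb.trans hbb.symm⟩ hxy)
        · have hlt : x < b' := by
            have := A.mono (m + 1) hxy.le
            rw [← hyb]
            exact A.lt_of_lt (by omega)
          refine mem_union_right _ (mem_biUnion.2 ⟨D₁ b' x ∩ T, mem_filter.2
            ⟨hf₂ b hb b' hb' x ⟨hx, hxb⟩, (card_le_card inter_subset_left).trans (hD₁ b' hb' x)⟩,
            mem_inter.2 ⟨hf₁ b' hb' x (mem_range.2 hlt) y ⟨hG₂ hy, hyb⟩, hf x y⟩⟩)
    choose E hEc hE using hE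
    choose u hu hinj using fun c => exists_enum _ (N a) (hB c).le
    obtain ⟨H, hH, hHc, t, ht, t', ht', hh, hh'⟩ := hN a (Finset α)
      (T.powerset.filter (fun d => d.card ≤ 8 * (r + 2 ^ h * 2 ^ h)))
      (fun i j => ((univ : Finset (Bool × Bool)).biUnion
        (fun p => E (u p.1 i) (u p.2 j) ∪ E (u p.2 j) (u p.1 i))) ∩ T)
      ((card_filter_le _ _).trans (by
        rw [card_powerset]
        exact Nat.pow_le_pow_right (by norm_num) hT))
      (fun i j => mem_filter.2 ⟨mem_powerset.2 inter_subset_right,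
        (card_le_card inter_subset_left).trans
          ((card_biUnion_le_card_mul _ _ (2 * (r + 2 ^ h * 2 ^ h)) fun p _ =>
            (card_union_le _ _).trans (by
              have := hEc (u p.1 i) (u p.2 j)
              have := hEc (u p.2 j) (u p.1 i)
              omega)).trans (by simp; omega))⟩)
    have hu' : ∀ c, ∀ i ∈ H, u c i ∈ B ∧ A.lam m (u c i) = c := fun c i hi =>
      mem_filter.1 (hu c i (mem_range.1 (hH hi)))
    have hmem : ∀ b ∈ H.image (u false) ∪ H.image (u true), ∃ c, ∃ i ∈ H, u c i = b := by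
      intro b hb
      rcases mem_union.1 hb with hb | hb <;> exact ⟨_, mem_image.1 hb⟩
    have hsub : ∀ b ∈ H.image (u false) ∪ H.image (u true), b ∈ B := fun b hb => by
      obtain ⟨c, i, hi, rfl⟩ := hmem b hb
      exact (hu' c i hi).1
    refine ref_succ (H.image (u false) ∪ H.image (u true)) ((hG₂.trans hG₁).trans hG₀)
      (col_union (fun c => H.image (u c)) (fun c => ?_) fun c b hb => ?_)
      (fun b hb => ha b (hsub b hb)) (fun b hb => hk₃ b (hsub b hb))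
      ⟨t ∪ t', (card_union_le _ _).trans (by
        have := (mem_filter.1 ht).2; have := (mem_filter.1 ht').2; omega), ?_⟩
    · rw [card_image_of_injOn ((hinj c).mono (coe_subset.2 hH))]
      exact hHc
    · obtain ⟨i, hi, rfl⟩ := mem_image.1 hb
      exact (hu' c i hi).2
    · intro x hx y hy hxy
      obtain ⟨c, i, hi, hxi⟩ := hmem _ hx.2
      obtain ⟨c', j, hj, hyj⟩ := hmem _ hy.2
      have hin := hE (u c i) (u c' j) (hu' c i hi).1 (hu' c' j hj).1 x hx.1 y hy.1 hxi.symm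
        hyj.symm hxy
      rcases lt_trichotomy i j with hij | rfl | hij
      · refine mem_union_left _ ?_
        rw [← hh i hi j hj hij]
        exact mem_inter.2 ⟨mem_biUnion.2 ⟨(c, c'), mem_univ _, mem_union_left _ hin⟩, hf x y⟩
      · refine mem_union_right _ ?_
        rw [← hh' i hi]
        exact mem_inter.2 ⟨mem_biUnion.2 ⟨(c, c'), mem_univ _, mem_union_left _ hin⟩, hf x y⟩
      · refine mem_union_left _ ?_
        rw [← hh j hj i hi hij]
        exact mem_inter.2 ⟨mem_biUnion.2 ⟨(c', c), mem_univ _, mem_union_right _ hin⟩, hf x y⟩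

/-- Freeness for a set-valued unary map, for points in different height-one nodes. -/
def UF (h : ℕ) : Prop := ∀ q β : ℕ → ℕ, ∃ β' : ℕ → ℕ, ∀ (A : Amb) (m a : ℕ) (G : Set ℕ)
    (Φ : ℕ → Finset ℕ), (∀ x, (Φ x).card ≤ q a) → A.Good β' (h + 1) m a G →
    A.Ref β (h + 1) m a G (fun G' => ∀ x ∈ G', ∀ z ∈ G', A.L (m + h) x ≠ A.L (m + h) z → z ∉ Φ x)

theorem UF.fam {h : ℕ} (ih : UF h) (q β : ℕ → ℕ) : ∃ β' : ℕ → ℕ, ∀ (A : Amb) (m a : ℕ)
    (B : Finset ℕ) (G : Set ℕ) (Φ : ℕ → Finset ℕ), (∀ x, (Φ x).card ≤ q a) → B.card ≤ q a →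
    (∀ b ∈ B, a ≤ b) → (∀ b ∈ B, A.Good β' (h + 1) m b G) →
    ∃ G' ⊆ G, (∀ y ∈ G', A.L m y ∈ B) ∧ (∀ b ∈ B, A.Good β (h + 1) m b G') ∧
      ∀ x ∈ G', ∀ z ∈ G', A.L (m + h) x ≠ A.L (m + h) z → z ∉ Φ x := by
  classical
  obtain ⟨q', hq'⟩ := exists_mono q
  obtain ⟨β₂, h₂⟩ := claimAV h (fun b => q' b * (2 ^ (h + 1) * q' b) + b * q' b) β
  obtain ⟨β₁, h₁⟩ := claimA (h + 1) (fun b => 2 ^ b) β₂
  obtain ⟨β₀, h₀⟩ := ih q' β₁
  refine ⟨β₀, fun A m a B G Φ hΦ hB hab hk₀ => ?_⟩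
  obtain ⟨G₀, hG₀, -, hk₁, hP₀⟩ := Amb.fam fun b hb => h₀ A m b G Φ
    (fun x => (hΦ x).trans (hq' _ _ (hab b hb))) (hk₀ b hb)
  obtain ⟨G₁, hG₁, -, hk₂, hP₁⟩ := Amb.fam fun b hb => h₁ A m b G₀ (Finset ℕ) (range b).powerset
    (fun x => Φ x ∩ range b) (by simp) (fun _ => mem_powerset.2 inter_subset_right) (hk₁ b hb)
  choose! D₁ hD₁ hf₁ using hP₁
  obtain ⟨G₂, hG₂, hn₂, hk₃, hP₂⟩ := Amb.fam fun b hb => h₂ A m b G₁
    (B.biUnion (fun b' => ((D₁ b').filter (fun d => d.card ≤ q a)).biUnion id) ∪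
      (range b).biUnion Φ) (by
        have hq := hq' _ _ (hab b hb)
        refine (card_union_le _ _).trans (Nat.add_le_add ?_ ?_)
        · refine (card_biUnion_le_card_mul _ _ (2 ^ (h + 1) * q' b) fun b' hb' => ?_).trans
            (Nat.mul_le_mul_right _ (hB.trans hq))
          refine (card_biUnion_le_card_mul _ _ (q' b) fun d hd =>
            (mem_filter.1 hd).2.trans hq).trans ?_
          exact Nat.mul_le_mul_right _ ((card_filter_le _ _).trans (hD₁ b' hb'))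
        · refine (card_biUnion_le_card_mul _ _ (q' b) fun x _ => (hΦ x).trans hq).trans ?_
          simp) (hk₂ b hb)
  refine ⟨G₂, (hG₂.trans hG₁).trans hG₀, hn₂, hk₃, fun x hx z hz hsep hzx => ?_⟩
  rcases lt_trichotomy (A.L m x) (A.L m z) with hlt | heq | hlt
  · exact hP₂ _ (hn₂ z hz) z ⟨hz, rfl⟩ (mem_union_right _
      (mem_biUnion.2 ⟨x, mem_range.2 (A.lt_of_lt hlt), hzx⟩))
  · exact hP₀ _ (hn₂ z hz) x ⟨hG₁ (hG₂ hx), heq⟩ z ⟨hG₁ (hG₂ hz), rfl⟩ hsep hzx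
  · refine hP₂ _ (hn₂ z hz) z ⟨hz, rfl⟩ (mem_union_left _ (mem_biUnion.2 ⟨_, hn₂ x hx,
      mem_biUnion.2 ⟨Φ x ∩ range (A.L m x), mem_filter.2 ⟨hf₁ _ (hn₂ x hx) x ⟨hG₂ hx, rfl⟩,
        (card_le_card inter_subset_left).trans (hΦ x)⟩, ?_⟩⟩))
    exact mem_inter.2 ⟨hzx, mem_range.2 (A.lt_of_lt hlt)⟩

theorem claimUF (h : ℕ) : UF h := by
  induction h with
  | zero =>
    intro q β
    refine ⟨β, fun A m a G Φ _ hG => ⟨{y | y ∈ G ∧ A.L m y = a}, fun y hy => hy.1,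
      fun y hy => hy.2, hG.mono (fun _ => le_rfl) fun y h1 h2 => ⟨h1, h2⟩, ?_⟩⟩
    intro x hx z hz hsep
    exact absurd (hx.2.trans hz.2.symm) hsep
  | succ h ih =>
    intro q β
    obtain ⟨β₀, h₀⟩ := ih.fam (fun a => q a + 2 * (β a + 1)) β
    refine ⟨fun a => β₀ a + β a, ?_⟩
    rintro A m a G Φ hΦ ⟨B₀, hB₀, hk₀⟩
    obtain ⟨B, hBB, hBc, hB⟩ := cut (n := β a) fun c => (Nat.le_add_left _ _).trans_lt (hB₀ c)
    have ha : ∀ b ∈ B, A.L m b = a := fun b hb => (hk₀ b (hBB hb)).1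
    obtain ⟨G', hG', -, hk, hP⟩ := h₀ A (m + 1) a B G Φ
      (fun x => (hΦ x).trans (Nat.le_add_right _ _)) (hBc.trans (Nat.le_add_left _ _))
      (fun b hb => A.le_of_eq (ha b hb)) fun b hb =>
        (hk₀ b (hBB hb)).2.mono (fun _ => Nat.le_add_right _ _) fun _ h _ => h
    refine ref_succ B hG' hB ha hk fun x hx z hz hsep => hP x hx.1 z hz.1 ?_
    rwa [show m + 1 + h = m + (h + 1) by omega]

/-- Freeness for pairs, for values in a different height-one node than both arguments. -/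
theorem claimFS (h : ℕ) : ∀ β : ℕ → ℕ, ∃ β' : ℕ → ℕ, ∀ (A : Amb) (m a : ℕ) (G : Set ℕ)
    (f : ℕ → ℕ → ℕ), A.Good β' (h + 1) m a G →
    A.Ref β (h + 1) m a G (fun G' => ∀ x ∈ G', ∀ y ∈ G', ∀ z ∈ G', x < y →
      A.L (m + h) x ≠ A.L (m + h) z → A.L (m + h) y ≠ A.L (m + h) z → f x y ≠ z) := by
  classical
  induction h with
  | zero =>
    intro β
    refine ⟨β, fun A m a G f hG => ⟨{y | y ∈ G ∧ A.L m y = a}, fun y hy => hy.1,
      fun y hy => hy.2, hG.mono (fun _ => le_rfl) fun y h1 h2 => ⟨h1, h2⟩, ?_⟩⟩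
    intro x hx y _ z hz _ hsep
    exact absurd (hx.2.trans hz.2.symm) hsep
  | succ h ih =>
    intro β
    obtain ⟨r, hr⟩ := claimB (h + 1)
    obtain ⟨q', hq'⟩ := exists_mono (fun a => 2 * (β a + 1))
    obtain ⟨β₅, h₅⟩ := (claimUF h).fam (fun a => 2 * (β a + 1) * 2 ^ (h + 1)) β
    obtain ⟨β₄, h₄⟩ := claimAV h (fun b => q' b * r + b * b) β₅
    obtain ⟨β₃, h₃⟩ := claimUF h id β₄
    obtain ⟨β₂, h₂⟩ := claimA' (h + 1) (fun b => b + 1) β₃
    obtain ⟨β₁, h₁⟩ := hr (fun b => b + 1) β₂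
    obtain ⟨β₀, h₀⟩ := ih β₁
    refine ⟨fun a => β₀ a + β a, ?_⟩
    rintro A m a G f ⟨B₀, hB₀, hk₀⟩
    obtain ⟨B, hBB, hBc, hB⟩ := cut (n := β a) fun c => (Nat.le_add_left _ _).trans_lt (hB₀ c)
    have ha : ∀ b ∈ B, A.L m b = a := fun b hb => (hk₀ b (hBB hb)).1
    have hab : ∀ b ∈ B, a ≤ b := fun b hb => A.le_of_eq (ha b hb)
    have hmin : ∀ b x y, min (f x y) b ∈ range (b + 1) := fun b x y =>
      mem_range.2 (Nat.lt_succ_of_le (min_le_right _ _))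
    obtain ⟨G₀, hG₀, -, hk₁, hP₀⟩ := fam fun b hb => h₀ A (m + 1) b G f
      ((hk₀ b (hBB hb)).2.mono (fun _ => Nat.le_add_right _ _) fun _ h _ => h)
    obtain ⟨G₁, hG₁, -, hk₂, hP₁⟩ := fam fun b hb => h₁ A (m + 1) b G₀ ℕ (range (b + 1))
      (fun x y => min (f x y) b) (by simp) (hmin b) (hk₁ b hb)
    choose! D₁ hD₁ hf₁ using hP₁
    obtain ⟨G₂, hG₂, -, hk₃, hP₂⟩ := fam fun b hb => h₂ A (m + 1) b G₁ ℕ (range b) (range (b + 1))
      (fun x y => min (f x y) b) (by simp) (by simp) (hmin b) (hk₂ b hb)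
    choose! D₂ hD₂ hf₂ using hP₂
    obtain ⟨G₃, hG₃, -, hk₄, hP₃⟩ := fam fun b hb => h₃ A (m + 1) b G₂
      (fun y => (range b).image (fun x => f x y)) (fun y => card_image_le.trans (by simp))
      (hk₃ b hb)
    obtain ⟨G₄, hG₄, -, hk₅, hP₄⟩ := fam fun b hb => h₄ A (m + 1) b G₃
      (B.biUnion D₁ ∪ (range b ×ˢ range b).image (fun p => f p.1 p.2)) (by
        refine (card_union_le _ _).trans (Nat.add_le_add ?_ (card_image_le.trans (by simp)))
        exact (card_biUnion_le_card_mul _ _ r hD₁).trans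
          (Nat.mul_le_mul_right _ (hBc.trans (hq' _ _ (hab b hb))))) (hk₄ b hb)
    obtain ⟨G₅, hG₅, hn₅, hk₆, hP₅⟩ := h₅ A (m + 1) a B G₄ (fun x => B.biUnion (fun b => D₂ b x))
      (fun x => (card_biUnion_le_card_mul _ _ (2 ^ (h + 1)) fun b hb => hD₂ b hb x).trans
        (Nat.mul_le_mul_right _ hBc))
      (hBc.trans (Nat.le_mul_of_pos_right _ (by positivity))) hab hk₅
    refine ref_succ B ((((hG₅.trans hG₄).trans hG₃).trans hG₂).trans (hG₁.trans hG₀)) hB ha hk₆ ?_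
    rintro x ⟨hx, hxB⟩ y ⟨hy, hyB⟩ z ⟨hz, hzB⟩ hxy hxz hyz hf
    rw [show m + (h + 1) = m + 1 + h by omega] at hxz hyz
    have hle := A.mono (m + 1) hxy.le
    rcases lt_trichotomy (A.L (m + 1) y) (A.L (m + 1) z) with hlt | heq | hlt
    · have hy' := A.lt_of_lt hlt
      exact hP₄ _ hzB z ⟨hG₅ hz, rfl⟩ (mem_union_right _ (mem_image.2 ⟨(x, y),
        mem_product.2 ⟨mem_range.2 (hxy.trans hy'), mem_range.2 hy'⟩, hf⟩))
    · rcases hle.lt_or_eq with hxlt | hxeq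
      · exact hP₃ _ hyB y ⟨hG₄ (hG₅ hy), rfl⟩ z ⟨hG₄ (hG₅ hz), heq.symm⟩ hyz
          (mem_image.2 ⟨x, mem_range.2 (A.lt_of_lt hxlt), hf⟩)
      · exact hP₀ _ hyB x ⟨hG₁ (hG₂ (hG₃ (hG₄ (hG₅ hx)))), hxeq⟩
          y ⟨hG₁ (hG₂ (hG₃ (hG₄ (hG₅ hy)))), rfl⟩
          z ⟨hG₁ (hG₂ (hG₃ (hG₄ (hG₅ hz)))), heq.symm⟩ hxy hxz hyz hf
    · have hz' := A.lt_of_lt hlt
      have hm : min (f x y) (A.L (m + 1) y) = z := by rw [hf]; exact min_eq_left hz'.le
      rcases hle.lt_or_eq with hxlt | hxeq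
      · refine hP₅ x hx z hz hxz (mem_biUnion.2 ⟨_, hyB, ?_⟩)
        rw [← hm]
        exact hf₂ _ hyB x (mem_range.2 (A.lt_of_lt hxlt)) y ⟨hG₃ (hG₄ (hG₅ hy)), rfl⟩
      · refine hP₄ _ hzB z ⟨hG₅ hz, rfl⟩ (mem_union_left _ (mem_biUnion.2 ⟨_, hyB, ?_⟩))
        rw [← hm]
        exact hf₁ _ hyB x ⟨hG₂ (hG₃ (hG₄ (hG₅ hx))), hxeq⟩ y ⟨hG₂ (hG₃ (hG₄ (hG₅ hy))), rfl⟩ hxy

/-- The combined step: make the condition free for `f`, then descend to a child of the colour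
different from `c` that misses `D`. -/
theorem step (h : ℕ) (β : ℕ → ℕ) : ∃ β' : ℕ → ℕ, ∀ (A : Amb) (m a : ℕ) (G : Set ℕ)
    (f : ℕ → ℕ → ℕ) (D : Set ℕ) (c : Bool), A.Good β' (h + 2) m a G →
    ∃ b, ∃ G' ⊆ G, A.Good β h (m + 1) b G' ∧ A.L m b = a ∧ A.lam m b = c ∧ (a + 1) ^ 2 ≤ b ∧
      (∃ y ∈ G', a ≤ y ∧ y < b) ∧
      ((∃ D' : Finset ℕ, D'.card ≤ a ∧ D ⊆ D') → ∀ y ∈ D, A.L (m + 1) y ≠ b) ∧
      ∀ x ∈ G', ∀ y ∈ G', ∀ z ∈ G', x < y → f x y = z → z = x ∨ z = y := by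
  classical
  obtain ⟨β', h'⟩ := claimFS (h + 1) (fun a => β a + (a + (a + 1) ^ 2 + 1))
  refine ⟨β', fun A m a G f D c hG => ?_⟩
  obtain ⟨G₁, hG₁, -, hg, hP⟩ := h' A m a G f hG
  obtain ⟨B, hB, hk⟩ := Good.single (m + (h + 1)) rfl hg.trunc
  obtain ⟨D', hD', hDD⟩ : ∃ D' : Finset ℕ, D'.card ≤ a ∧
      ((∃ D' : Finset ℕ, D'.card ≤ a ∧ D ⊆ D') → D ⊆ D') := by
    by_cases hD : ∃ D' : Finset ℕ, D'.card ≤ a ∧ D ⊆ D'
    · obtain ⟨D', h1, h2⟩ := hD
      exact ⟨D', h1, fun _ => h2⟩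
    · exact ⟨∅, by simp, fun h => absurd h hD⟩
  have hc := hB c
  have hne : B.Nonempty := (card_pos.1 ((Nat.zero_le _).trans_lt hc)).mono (filter_subset _ _)
  obtain ⟨b, hb, hbn⟩ := exists_mem_notMem_of_card_lt_card
    (s := insert (B.min' hne) (range ((a + 1) ^ 2) ∪ D'.image (A.L (m + 1))))
    (t := B.filter (fun b => A.lam m b = c)) (by
      have h1 := card_insert_le (B.min' hne) (range ((a + 1) ^ 2) ∪ D'.image (A.L (m + 1)))
      have h2 := card_union_le (range ((a + 1) ^ 2)) (D'.image (A.L (m + 1)))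
      have h3 : (D'.image (A.L (m + 1))).card ≤ a := card_image_le.trans hD'
      rw [card_range] at h2
      beta_reduce at hc
      omega)
  simp only [mem_insert, mem_union, mem_range, not_or, not_lt] at hbn
  have hbB := (mem_filter.1 hb).1
  refine ⟨b, _, fun y hy => hG₁ hy.1,
    (hk b hbB).2.mono (fun _ => Nat.le_add_right _ _) fun _ h _ => h, (hk b hbB).1,
    (mem_filter.1 hb).2, hbn.2.1, ?_, fun hD y hy hyb => hbn.2.2 ?_, ?_⟩
  · obtain ⟨y, hy, hyb⟩ := (hk _ (B.min'_mem hne)).2.exists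
    refine ⟨y, hy, (A.le_of_eq (hk _ (B.min'_mem hne)).1).trans (A.le_of_eq hyb), ?_⟩
    obtain ⟨y', -, hy'⟩ := (hk b hbB).2.exists
    rw [← hy']
    refine A.lt_of_lt ?_
    rw [hyb, hy']
    exact lt_of_le_of_ne (B.min'_le b hbB) (Ne.symm hbn.1)
  · exact mem_image.2 ⟨y, hDD hD hy, hyb⟩
  · intro x hx y hy z hz hxy hf
    by_contra hn
    have inj : ∀ u w, (u ∈ G₁ ∧ ∀ y' ∈ G₁, A.L (m + (h + 1)) y' = A.L (m + (h + 1)) u → u ≤ y') →
        (w ∈ G₁ ∧ ∀ y' ∈ G₁, A.L (m + (h + 1)) y' = A.L (m + (h + 1)) w → w ≤ y') →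
        A.L (m + (h + 1)) u = A.L (m + (h + 1)) w → w = u := fun u w hu hw he =>
      le_antisymm (hw.2 u hu.1 he) (hu.2 w hw.1 he.symm)
    exact hP x hx.1 y hy.1 z hz.1 hxy (fun he => hn (Or.inl (inj x z hx hz he)))
      (fun he => hn (Or.inr (inj y z hy hz he))) hf

end Pool.Agent.FreeSOA
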